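import Pool.Agent.helper63.RV.E0

/-!
# Uniform versions
-/

namespace Pool.Agent.helper63.RV

open Encodable Pool.Agent.helper63.Diag Nat.Partrec

/-- avoiding `{0,1}`-valued partial recursive functions gives two-valued diagonal functions,
uniformly, given computable inequivalent pairs -/
theorem two_unif {X : ℕ → ℕ} (h : Av X 2) {E : ℕ → ℕ → ℕ → Prop} (hE : ∀ n, Equivalence (E n))
    (hre : REPred fun p : ℕ × ℕ × ℕ => E p.1 p.2.1 p.2.2) {a b : ℕ → ℕ} (ha : Computable a)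
    (hb : Computable b) (hab : ∀ n, ¬ E n (a n) (b n)) :
    ∃ g : ℕ → ℕ, RI X g ∧ ∀ n x, (g (Nat.pair n x) = a n ∨ g (Nat.pair n x) = b n) ∧
      ¬ E n (g (Nat.pair n x)) x := by
  let f : ℕ → ℕ → ℕ := fun n i => Nat.casesOn i (a n) (fun _ => b n)
  have hf : Computable₂ f := by
    refine Computable.nat_casesOn Computable.snd (ha.comp Computable.fst) ?_
    exact hb.comp (Computable.fst.comp Computable.fst)
  have hA : REPred (fun p : ℕ × ℕ => E p.1.unpair.1 (f p.1.unpair.1 p.2) p.1.unpair.2) := by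
    have hc : Computable (fun p : ℕ × ℕ => (p.1.unpair.1, f p.1.unpair.1 p.2, p.1.unpair.2)) := by
      have hu1 : Computable (fun p : ℕ × ℕ => p.1.unpair.1) :=
        (Primrec.fst.comp (Primrec.unpair.comp Primrec.fst)).to_comp
      have hu2 : Computable (fun p : ℕ × ℕ => p.1.unpair.2) :=
        (Primrec.snd.comp (Primrec.unpair.comp Primrec.fst)).to_comp
      exact hu1.pair ((hf.comp hu1 Computable.snd).pair hu2)
    have := Partrec.comp hre hc
    exact this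
  obtain ⟨ψ, hψ, h1, h2⟩ := select hA
  have hψ' : Partrec (fun z => (ψ z).map (fun i => min i 1)) := by
    refine hψ.map ?_
    exact (Primrec.nat_min.comp Primrec.snd (Primrec.const 1)).to_comp
  obtain ⟨c, hc, h3⟩ := h _ hψ'
  have hfc : ∀ n i, f n i = a n ∨ f n i = b n := by
    intro n i
    cases i with
    | zero => exact Or.inl rfl
    | succ i => exact Or.inr rfl
  refine ⟨fun z => f z.unpair.1 (c z), ?_, fun n x => ⟨hfc _ _ |>.imp (fun h => by simpa using h)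
    (fun h => by simpa using h), fun hx => ?_⟩⟩
  · have hF : RI X (fun z => f z.unpair.1.unpair.1 z.unpair.2) := by
      refine RI.computable ?_
      have hu1 : Computable (fun z : ℕ => z.unpair.1.unpair.1) :=
        (Primrec.fst.comp (Primrec.unpair.comp (Primrec.fst.comp Primrec.unpair))).to_comp
      have hu2 : Computable (fun z : ℕ => z.unpair.2) :=
        (Primrec.snd.comp Primrec.unpair).to_comp
      exact hf.comp hu1 hu2
    have := hF.comp ((RI.prim Primrec.id).pair hc)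
    simpa using this
  · simp only [Nat.unpair_pair] at hx
    have hAx : (fun p : ℕ × ℕ => E p.1.unpair.1 (f p.1.unpair.1 p.2) p.1.unpair.2)
        (Nat.pair n x, c (Nat.pair n x)) := by
      simpa using hx
    have hdom := h2 (Nat.pair n x) ⟨_, hAx⟩
    obtain ⟨i, hi⟩ := Part.dom_iff_mem.1 hdom
    have h5 := h1 _ _ hi
    simp only [Nat.unpair_pair] at h5
    have h6 : min i 1 ≠ c (Nat.pair n x) := by
      intro h7
      exact (h3 (Nat.pair n x)).2 (Part.mem_map_iff _ |>.2 ⟨i, hi, h7⟩)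
    have h7 := (h3 (Nat.pair n x)).1
    have h8 : E n (f n i) (f n (c (Nat.pair n x))) := (hE n).trans h5 ((hE n).symm hx)
    rcases Nat.lt_or_ge (c (Nat.pair n x)) 1 with h9 | h9
    · have h10 : c (Nat.pair n x) = 0 := by omega
      obtain ⟨j, rfl⟩ : ∃ j, i = j + 1 := ⟨i - 1, by omega⟩
      rw [h10] at h8
      exact hab n ((hE n).symm h8)
    · have h10 : c (Nat.pair n x) = 0 + 1 := by omega
      have h11 : i = 0 := by omega
      rw [h10, h11] at h8
      exact hab n h8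

/-- three blocks, with the last one possibly merged with one of the others -/
def E3 (θ : ℕ →. ℕ) (n u v : ℕ) : Prop := min u 2 = min v 2 ∨
  ∃ i, i ∈ θ n ∧ (i < 2 ∧ (min u 2 = i ∨ min u 2 = 2) ∧ (min v 2 = i ∨ min v 2 = 2))

theorem E3_equiv (θ : ℕ →. ℕ) (n : ℕ) : Equivalence (E3 θ n) := by
  refine ⟨fun u => Or.inl rfl, ?_, ?_⟩
  · rintro u v (h | ⟨i, h1, h2, h3, h4⟩)
    · exact Or.inl h.symm
    · exact Or.inr ⟨i, h1, h2, h4, h3⟩
  · rintro u v w (h | ⟨i, h1, h2, h3, h4⟩) (h' | ⟨j, h1', h2', h3', h4'⟩)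
    · exact Or.inl (h.trans h')
    · exact Or.inr ⟨j, h1', h2', by rwa [h], h4'⟩
    · exact Or.inr ⟨i, h1, h2, h3, by rwa [← h']⟩
    · have := Part.mem_unique h1 h1'
      subst this
      exact Or.inr ⟨i, h1, h2, h3, h4'⟩

theorem E3_re {θ : ℕ →. ℕ} (h : Partrec θ) : REPred (fun p : ℕ × ℕ × ℕ => E3 θ p.1 p.2.1 p.2.2) := by
  refine re_of_s1 ?_
  have hu : Primrec (fun q : (ℕ × ℕ × ℕ) × ℕ => min q.1.2.1 2) :=
    Primrec.nat_min.comp (Primrec.fst.comp (Primrec.snd.comp Primrec.fst)) (Primrec.const 2)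
  have hv : Primrec (fun q : (ℕ × ℕ × ℕ) × ℕ => min q.1.2.2 2) :=
    Primrec.nat_min.comp (Primrec.snd.comp (Primrec.snd.comp Primrec.fst)) (Primrec.const 2)
  refine S1.or (S1.prim ?_) ?_
  · exact Primrec.eq.comp
      (Primrec.nat_min.comp (Primrec.fst.comp Primrec.snd) (Primrec.const 2))
      (Primrec.nat_min.comp (Primrec.snd.comp Primrec.snd) (Primrec.const 2))
  · refine S1.ex (A := fun (p : ℕ × ℕ × ℕ) (i : ℕ) => i ∈ θ p.1 ∧ (i < 2 ∧
      (min p.2.1 2 = i ∨ min p.2.1 2 = 2) ∧ (min p.2.2 2 = i ∨ min p.2.2 2 = 2)))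
      (S1.and ?_ (S1.prim ?_))
    · exact (s1_partrec h).comp (Primrec.pair (Primrec.fst.comp Primrec.fst) Primrec.snd)
    · refine PrimrecPred.and (Primrec.nat_lt.comp Primrec.snd (Primrec.const 2))
        (PrimrecPred.and (PrimrecPred.or ?_ ?_) (PrimrecPred.or ?_ ?_))
      · exact Primrec.eq.comp hu Primrec.snd
      · exact Primrec.eq.comp hu (Primrec.const 2)
      · exact Primrec.eq.comp hv Primrec.snd
      · exact Primrec.eq.comp hv (Primrec.const 2)

theorem E3_zero_one (θ : ℕ →. ℕ) (n : ℕ) : ¬ E3 θ n 0 1 := by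
  rintro (h | ⟨i, -, h2, h3, h4⟩)
  · omega
  · omega

theorem E3_two (θ : ℕ →. ℕ) (n u : ℕ) (hu : 2 ≤ u) : E3 θ n u 2 := Or.inl (by omega)

theorem E3_avoid {θ : ℕ →. ℕ} {n c : ℕ} (h : ¬ E3 θ n c 2) : c < 2 ∧ c ∉ θ n := by
  refine ⟨?_, fun hc => h (Or.inr ⟨c, hc, ?_⟩)⟩
  · by_contra h1
    exact h (E3_two θ n c (by omega))
  · have h1 : c < 2 := by
      by_contra h1
      exact h (E3_two θ n c (by omega))
    omega

/-- the halting problem -/
def K (n : ℕ) : Prop := (Code.eval (Denumerable.ofNat Code n) n).Dom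

theorem kin_iff (n : ℕ) : (∃ s, kin s n) ↔ K n := by
  unfold K
  rw [Part.dom_iff_mem]
  constructor
  · rintro ⟨s, hs⟩
    obtain ⟨v, hv⟩ := Option.isSome_iff_exists.1 hs
    exact ⟨v, Code.evaln_sound hv⟩
  · rintro ⟨v, hv⟩
    obtain ⟨s, hs⟩ := Code.evaln_complete.1 hv
    exact ⟨s, Option.isSome_iff_exists.2 ⟨v, hs⟩⟩

theorem part_of_re {A : ℕ → Prop} (hA : REPred A) : ∃ θ : ℕ →. ℕ, Partrec θ ∧
    ∀ n, (θ n).Dom ↔ A n := by
  refine ⟨fun n => (Part.assert (A n) fun _ => Part.some ()).map (fun _ => 0), ?_, fun n => ?_⟩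
  · exact Partrec.map hA (Computable.const 0).to₂
  · constructor
    · rintro ⟨h, -⟩; exact h
    · intro h; exact ⟨h, trivial⟩

theorem not_s1 {X : ℕ → ℕ} (hK : S1 X (fun n => ¬ K n)) {A : ℕ → Prop} (hA : REPred A) :
    S1 X (fun n => ¬ A n) := by
  obtain ⟨θ, hθ, h1⟩ := part_of_re hA
  obtain ⟨q, hq, h2⟩ := smn hθ
  refine (hK.comp hq).of_iff (fun n => not_congr ?_)
  rw [← h1, K, Part.dom_iff_mem, Part.dom_iff_mem]
  exact exists_congr (fun m => h2 n m)

theorem re_comp3 {E : ℕ → ℕ → ℕ → Prop}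
    (hre : REPred fun p : ℕ × ℕ × ℕ => E p.1 p.2.1 p.2.2) {a b c : ℕ → ℕ} (ha : Primrec a)
    (hb : Primrec b) (hc : Primrec c) : REPred (fun z => E (a z) (b z) (c z)) := by
  have h1 : Computable (fun z : ℕ => (a z, b z, c z)) := (ha.pair (hb.pair hc)).to_comp
  have := Partrec.comp hre h1
  exact this

theorem not_s1_3 {X : ℕ → ℕ} (hK : S1 X (fun n => ¬ K n)) {E : ℕ → ℕ → ℕ → Prop}
    (hre : REPred fun p : ℕ × ℕ × ℕ => E p.1 p.2.1 p.2.2) :
    S1 X (fun p : ℕ × ℕ => ¬ E p.1.unpair.1 p.2 p.1.unpair.2) := by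
  have hf : Primrec (fun q : ℕ => q.unpair.1) := Primrec.fst.comp Primrec.unpair
  have hs : Primrec (fun q : ℕ => q.unpair.2) := Primrec.snd.comp Primrec.unpair
  have h1 := not_s1 hK (re_comp3 hre (hf.comp hf) hs (hs.comp hf))
  have h2 := h1.comp (Primrec₂.natPair.comp Primrec.fst Primrec.snd)
  refine h2.of_iff (fun p => ?_)
  simp only [Nat.unpair_pair]

theorem unif_of_K {X : ℕ → ℕ} (hK : S1 X (fun n => ¬ K n)) {E : ℕ → ℕ → ℕ → Prop}
    (hE : ∀ n, Equivalence (E n)) (hre : REPred fun p : ℕ × ℕ × ℕ => E p.1 p.2.1 p.2.2)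
    (hn : ∀ n, ∃ a b, ¬ E n a b) :
    ∃ g : ℕ → ℕ, RI X g ∧ ∀ n x, ¬ E n (g (Nat.pair n x)) x := by
  obtain ⟨g, h1, h2⟩ := S1.unif (not_s1_3 hK hre) (fun y => by
    by_contra h
    push Not at h
    obtain ⟨a, b, hab⟩ := hn y.unpair.1
    exact hab ((hE _).trans (h a) ((hE _).symm (h b))))
  refine ⟨g, RI.of_s1 h2, fun n x => ?_⟩
  have := h1 (Nat.pair n x)
  simpa using this

/-- the sequence of ceers coding the halting problem -/
def EK (n u v : ℕ) : Prop := u = v ∨ ((∃ s, kin s n) ∧ ¬ kin u n ∧ ¬ kin v n)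

theorem EK_equiv (n : ℕ) : Equivalence (EK n) := by
  refine ⟨fun u => Or.inl rfl, ?_, ?_⟩
  · rintro u v (h | ⟨h1, h2, h3⟩)
    · exact Or.inl h.symm
    · exact Or.inr ⟨h1, h3, h2⟩
  · rintro u v w (rfl | ⟨h1, h2, h3⟩) (rfl | ⟨h1', h2', h3'⟩)
    · exact Or.inl rfl
    · exact Or.inr ⟨h1', h2', h3'⟩
    · exact Or.inr ⟨h1, h2, h3⟩
    · exact Or.inr ⟨h1, h2, h3'⟩

theorem EK_re : REPred (fun p : ℕ × ℕ × ℕ => EK p.1 p.2.1 p.2.2) := by
  refine re_of_s1 ?_
  refine S1.or (S1.prim ?_) (S1.and ?_ (S1.prim (PrimrecPred.and ?_ ?_)))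
  · exact Primrec.eq.comp (Primrec.fst.comp Primrec.snd) (Primrec.snd.comp Primrec.snd)
  · exact S1.ex (A := fun (p : ℕ × ℕ × ℕ) (s : ℕ) => kin s p.1)
      (S1.prim (prim_kin.comp Primrec.snd (Primrec.fst.comp Primrec.fst)))
  · exact PrimrecPred.not (prim_kin.comp (Primrec.fst.comp Primrec.snd) Primrec.fst)
  · exact PrimrecPred.not (prim_kin.comp (Primrec.snd.comp Primrec.snd) Primrec.fst)

theorem EK_finite (n : ℕ) : {p : ℕ × ℕ | p.1 ≠ p.2 ∧ EK n p.1 p.2}.Finite := by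
  by_cases h : ∃ s, kin s n
  · obtain ⟨s, hs⟩ := h
    refine ((Set.finite_Iio s).prod (Set.finite_Iio s)).subset ?_
    rintro ⟨u, v⟩ ⟨h1, h2 | ⟨-, h2, h3⟩⟩
    · exact absurd h2 h1
    · constructor
      · show u < s
        by_contra h4
        exact h2 (kin_mono (by omega) hs)
      · show v < s
        by_contra h4
        exact h3 (kin_mono (by omega) hs)
  · refine Set.finite_empty.subset ?_
    rintro ⟨u, v⟩ ⟨h1, h2 | ⟨h2, -⟩⟩
    · exact absurd h2 h1
    · exact absurd h2 h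

theorem nontriv_of_finite {E : ℕ → ℕ → Prop} (h : {p : ℕ × ℕ | p.1 ≠ p.2 ∧ E p.1 p.2}.Finite) :
    ∃ a b, ¬ E a b := by
  by_contra hcon
  push Not at hcon
  refine Set.infinite_of_injective_forall_mem (f := fun n : ℕ => (n, n + 1)) ?_ ?_ h
  · intro a b hab
    exact (Prod.mk.inj hab).1
  · intro n
    exact ⟨by simp, hcon _ _⟩

theorem K_of_EK {X g : ℕ → ℕ} (hg : RI X g) (h : ∀ n x, ¬ EK n (g (Nat.pair n x)) x) :
    S1 X (fun n => ¬ K n) := by
  have hp : Primrec (fun q : ℕ × ℕ => Nat.pair q.1 0) :=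
    Primrec₂.natPair.comp Primrec.fst (Primrec.const 0)
  have h1 : S1 X (fun n : ℕ => ∃ v : ℕ, g (Nat.pair n 0) = v ∧ ¬ kin v n) := by
    refine S1.ex (A := fun (n : ℕ) (v : ℕ) => g (Nat.pair n 0) = v ∧ ¬ kin v n)
      (S1.and ?_ (S1.prim ?_))
    · exact (s1_graph' hg).comp (Primrec.pair hp Primrec.snd)
    · exact PrimrecPred.not (prim_kin.comp Primrec.snd Primrec.fst)
  refine h1.of_iff (fun n => ?_)
  rw [← kin_iff]
  constructor
  · rintro ⟨v, rfl, hv⟩ hs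
    exact h n 0 (Or.inr ⟨hs, hv, not_kin_zero n⟩)
  · intro hs
    exact ⟨_, rfl, fun hk => hs ⟨_, hk⟩⟩

/-- from the complement of the halting problem to its characteristic function -/
theorem RI_of_K {X t : ℕ → ℕ} {P : ℕ → Prop} (h1 : S1 X P) (h2 : S1 X (fun n => ¬ P n))
    (ht : ∀ n, (P n → t n = 1) ∧ (¬ P n → t n = 0)) : RI X t := by
  classical
  refine RI.of_s1 ?_
  have ha : S1 X (fun p : ℕ × ℕ => (P p.1 ∧ p.2 = 1) ∨ ((¬ P p.1) ∧ p.2 = 0)) := by
    refine S1.or (S1.and (h1.comp Primrec.fst) (S1.prim ?_))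
      (S1.and (h2.comp Primrec.fst) (S1.prim ?_))
    · exact Primrec.eq.comp Primrec.snd (Primrec.const 1)
    · exact Primrec.eq.comp Primrec.snd (Primrec.const 0)
  refine ha.of_iff ?_
  rintro ⟨n, m⟩
  show (P n ∧ m = 1) ∨ (¬ P n ∧ m = 0) ↔ t n = m
  by_cases h : P n
  · rw [(ht n).1 h]
    constructor
    · rintro (⟨-, h3⟩ | ⟨h3, -⟩)
      · exact h3.symm
      · exact absurd h h3
    · intro h3; exact Or.inl ⟨h, h3.symm⟩
  · rw [(ht n).2 h]
    constructor
    · rintro (⟨h3, -⟩ | ⟨-, h3⟩)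
      · exact absurd h3 h
      · exact h3.symm
    · intro h3; exact Or.inr ⟨h, h3.symm⟩

/-- a function deciding `P` makes both `P` and its complement `Σ⁰₁` -/
theorem s1_of_RI {X t : ℕ → ℕ} {P : ℕ → Prop} (h : RI X t)
    (ht : ∀ n, (P n → t n = 1) ∧ (¬ P n → t n = 0)) : S1 X P ∧ S1 X (fun n => ¬ P n) := by
  have hk : ∀ k : ℕ, S1 X (fun n => t n = k) := fun k =>
    (s1_graph' h).comp (Primrec.pair Primrec.id (Primrec.const k))
  refine ⟨(hk 1).of_iff (fun n => ?_), (hk 0).of_iff (fun n => ?_)⟩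
  · by_cases hP : P n
    · simp [(ht n).1 hP, hP]
    · simp [(ht n).2 hP, hP]
  · by_cases hP : P n
    · simp [(ht n).1 hP, hP]
    · simp [(ht n).2 hP, hP]

theorem s1_K {X : ℕ → ℕ} : S1 X K := by
  have : S1 X (fun n : ℕ => ∃ s, kin s n) :=
    S1.ex (A := fun (n : ℕ) (s : ℕ) => kin s n) (S1.prim (prim_kin.comp Primrec.snd Primrec.fst))
  exact this.of_iff kin_iff

/-- totality -/
def Tt (n : ℕ) : Prop := ∀ y, (Code.eval (Denumerable.ofNat Code n) y).Dom

theorem tot_param {A : ℕ → Prop} (hA : REPred A) : ∃ q : ℕ → ℕ, Primrec q ∧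
    ∀ n, Tt (q n) ↔ ∀ y, A (Nat.pair n y) := by
  obtain ⟨θ, hθ, h1⟩ := part_of_re hA
  obtain ⟨c, hc⟩ := Code.exists_code.1 (Partrec.nat_iff.1 hθ)
  refine ⟨fun n => encode (Code.curry c n), ?_, fun n => ?_⟩
  · exact Primrec.encode.comp (Code.primrec₂_curry.comp (Primrec.const c) Primrec.id)
  · unfold Tt
    refine forall_congr' (fun y => ?_)
    rw [Denumerable.ofNat_encode, Code.eval_curry, hc, h1]

theorem unif_of_Tt {X : ℕ → ℕ} (hT : S1 X Tt) (hT' : S1 X (fun n => ¬ Tt n))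
    {E : ℕ → ℕ → ℕ → Prop}
    (hre : REPred fun p : ℕ × ℕ × ℕ => E p.1 p.2.1 p.2.2) (hE : ∀ n, Equivalence (E n)) :
    ∃ g : ℕ → ℕ, RI X g ∧ ∀ n, (∃ a b, ¬ E n a b) → ∀ x, ¬ E n (g (Nat.pair n x)) x := by
  have hf : Primrec (fun q : ℕ => q.unpair.1) := Primrec.fst.comp Primrec.unpair
  have hs : Primrec (fun q : ℕ => q.unpair.2) := Primrec.snd.comp Primrec.unpair
  have hK : S1 X (fun n => ¬ K n) := by
    have hA : REPred (fun z : ℕ => K z.unpair.1) :=
      re_of_s1 (s1_K.comp hf)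
    obtain ⟨r, hr, h1⟩ := tot_param hA
    refine (hT'.comp hr).of_iff (fun n => not_congr ?_)
    rw [h1]
    simp only [Nat.unpair_pair]
    exact ⟨fun h => h 0, fun h _ => h⟩
  obtain ⟨q, hq, h2⟩ := tot_param (re_comp3 hre hf (hf.comp hs) (hs.comp hs))
  have h3 : ∀ n, Tt (q n) ↔ ∀ u v, E n u v := by
    intro n
    rw [h2]
    constructor
    · intro h u v
      have := h (Nat.pair u v)
      simpa using this
    · intro h y
      simpa using h _ _
  have h4 : S1 X (fun p : ℕ × ℕ => Tt (q p.1.unpair.1) ∨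
      ¬ E p.1.unpair.1 p.2 p.1.unpair.2) :=
    S1.or (hT.comp (hq.comp (hf.comp Primrec.fst))) (not_s1_3 hK hre)
  obtain ⟨g, h5, h6⟩ := S1.unif h4 (fun y => by
    by_cases h : Tt (q y.unpair.1)
    · exact ⟨0, Or.inl h⟩
    · have h7 := h
      rw [h3] at h7
      by_contra hcon
      push Not at hcon
      apply h7
      intro u v
      exact (hE _).trans (hcon u).2 ((hE _).symm (hcon v).2))
  refine ⟨g, RI.of_s1 h6, ?_⟩
  rintro n ⟨a, b, hab⟩ x
  have h7 := h5 (Nat.pair n x)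
  simp only [Nat.unpair_pair] at h7
  rcases h7 with h7 | h7
  · exact absurd ((h3 n).1 h7 a b) hab
  · exact h7

/-- the sequence of ceers coding totality -/
def ET (n u v : ℕ) : Prop :=
  u = v ∨ ∀ y < max u v, (Code.eval (Denumerable.ofNat Code n) y).Dom

theorem ET_equiv (n : ℕ) : Equivalence (ET n) := by
  refine ⟨fun u => Or.inl rfl, ?_, ?_⟩
  · rintro u v (h | h)
    · exact Or.inl h.symm
    · exact Or.inr (by rwa [max_comm])
  · rintro u v w (rfl | h1) (rfl | h2)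
    · exact Or.inl rfl
    · exact Or.inr h2
    · exact Or.inr h1
    · refine Or.inr (fun y hy => ?_)
      rcases lt_max_iff.1 hy with h | h
      · exact h1 y (lt_max_of_lt_left h)
      · exact h2 y (lt_max_of_lt_right h)

theorem s1_dom {X : ℕ → ℕ} :
    S1 X (fun p : ℕ × ℕ => (Code.eval (Denumerable.ofNat Code p.1) p.2).Dom) := by
  have h1 : S1 X (fun p : ℕ × ℕ => ∃ v : ℕ, v ∈ Code.eval (Denumerable.ofNat Code p.1) p.2) := by
    refine S1.ex (A := fun (p : ℕ × ℕ) (v : ℕ) => v ∈ Code.eval (Denumerable.ofNat Code p.1) p.2) ?_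
    exact s1_eval.comp (Primrec.pair (Primrec.pair ((Primrec.ofNat Code).comp
      (Primrec.fst.comp Primrec.fst)) (Primrec.snd.comp Primrec.fst)) Primrec.snd)
  exact h1.of_iff (fun p => Part.dom_iff_mem.symm)

theorem ET_re : REPred (fun p : ℕ × ℕ × ℕ => ET p.1 p.2.1 p.2.2) := by
  refine re_of_s1 ?_
  refine S1.or (S1.prim ?_) ?_
  · exact Primrec.eq.comp (Primrec.fst.comp Primrec.snd) (Primrec.snd.comp Primrec.snd)
  · refine S1.balllt (A := fun (p : ℕ × ℕ × ℕ) (y : ℕ) =>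
      (Code.eval (Denumerable.ofNat Code p.1) y).Dom) (f := fun p => max p.2.1 p.2.2) ?_ ?_
    · exact s1_dom.comp (Primrec.pair (Primrec.fst.comp Primrec.fst) Primrec.snd)
    · exact Primrec.nat_max.comp (Primrec.fst.comp Primrec.snd) (Primrec.snd.comp Primrec.snd)

theorem Tt_of_ET {X g : ℕ → ℕ} (hK : S1 X (fun n => ¬ K n)) (hg : RI X g)
    (h : ∀ n, (∃ a b, ¬ ET n a b) → ∀ x, ¬ ET n (g (Nat.pair n x)) x) :
    S1 X Tt ∧ S1 X (fun n => ¬ Tt n) := by
  have hp : Primrec (fun q : ℕ × ℕ => Nat.pair q.1 0) :=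
    Primrec₂.natPair.comp Primrec.fst (Primrec.const 0)
  have key : ∀ n, Tt n ↔ ∀ y < g (Nat.pair n 0), (Code.eval (Denumerable.ofNat Code n) y).Dom := by
    intro n
    refine ⟨fun h1 y _ => h1 y, fun h1 => ?_⟩
    by_contra h2
    unfold Tt at h2
    push Not at h2
    obtain ⟨T, hT⟩ := h2
    have h3 : ¬ ET n T (T + 1) := by
      rintro (h4 | h4)
      · omega
      · exact hT (h4 T (lt_max_of_lt_right (Nat.lt_succ_self T)))
    exact h n ⟨_, _, h3⟩ 0 (Or.inr (by simpa using h1))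
  constructor
  · have h1 : S1 X (fun n : ℕ => ∃ v : ℕ, g (Nat.pair n 0) = v ∧
        ∀ y < v, (Code.eval (Denumerable.ofNat Code n) y).Dom) := by
      refine S1.ex (A := fun (n : ℕ) (v : ℕ) => g (Nat.pair n 0) = v ∧
        ∀ y < v, (Code.eval (Denumerable.ofNat Code n) y).Dom) (S1.and ?_ ?_)
      · exact (s1_graph' hg).comp (Primrec.pair hp Primrec.snd)
      · refine S1.balllt (A := fun (p : ℕ × ℕ) (y : ℕ) =>
          (Code.eval (Denumerable.ofNat Code p.1) y).Dom) (f := fun p => p.2) ?_ Primrec.snd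
        exact s1_dom.comp (Primrec.pair (Primrec.fst.comp Primrec.fst) Primrec.snd)
    refine h1.of_iff (fun n => ?_)
    rw [key]
    exact ⟨fun ⟨v, h2, h3⟩ => h2 ▸ h3, fun h2 => ⟨_, rfl, h2⟩⟩
  · have hre : REPred (fun z : ℕ => (Code.eval (Denumerable.ofNat Code z.unpair.1)
        z.unpair.2).Dom) := by
      refine re_of_s1 ?_
      exact s1_dom.comp Primrec.unpair
    have h0 := not_s1 hK hre
    have h1 : S1 X (fun n : ℕ => ∃ v : ℕ × ℕ, g (Nat.pair n 0) = v.1 ∧ (v.2 < v.1 ∧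
        ¬ (Code.eval (Denumerable.ofNat Code (Nat.pair n v.2).unpair.1)
          (Nat.pair n v.2).unpair.2).Dom)) := by
      refine S1.ex (A := fun (n : ℕ) (v : ℕ × ℕ) => g (Nat.pair n 0) = v.1 ∧ (v.2 < v.1 ∧
        ¬ (Code.eval (Denumerable.ofNat Code (Nat.pair n v.2).unpair.1)
          (Nat.pair n v.2).unpair.2).Dom)) (S1.and ?_ (S1.and (S1.prim ?_) ?_))
      · exact (s1_graph' hg).comp (Primrec.pair (Primrec₂.natPair.comp Primrec.fst
          (Primrec.const 0)) (Primrec.fst.comp Primrec.snd))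
      · exact Primrec.nat_lt.comp (Primrec.snd.comp Primrec.snd) (Primrec.fst.comp Primrec.snd)
      · exact h0.comp (Primrec₂.natPair.comp Primrec.fst (Primrec.snd.comp Primrec.snd))
    refine h1.of_iff (fun n => ?_)
    rw [key]
    push Not
    constructor
    · rintro ⟨⟨v, y⟩, h2, h3, h4⟩
      simp only [Nat.unpair_pair] at h2 h3 h4
      exact ⟨y, h2 ▸ h3, h4⟩
    · rintro ⟨y, h3, h4⟩
      exact ⟨(_, y), rfl, h3, by simpa using h4⟩

end Pool.Agent.helper63.RV
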