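import Pool.Agent.helper63.Diag.Conv
import Pool.Agent.helper63.Diag.Base
import Pool.Agent.helper63.Diag.Rand1

/-!
# Tools: recursively enumerable predicates, selection, avoiding partial recursive functions
-/

namespace Pool.Agent.helper63.RV

open Encodable Pool.Agent.helper63.Diag

theorem re_of_prim {α : Type} [Primcodable α] {D : α → ℕ → Prop} (hD : PrimrecRel D) :
    REPred (fun a => ∃ n, D a n) := by
  classical
  have h1 : Partrec (fun a : α => Nat.rfind (fun s => Part.some (decide (D a s)))) :=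
    Partrec.rfind (PrimrecRel.decide hD).to_comp.partrec
  refine (Partrec.dom_re h1).of_eq (fun a => ?_)
  rw [Part.dom_iff_mem]
  constructor
  · rintro ⟨s, hs⟩
    have := Nat.rfind_spec hs
    exact ⟨s, by simpa [eq_comm] using this⟩
  · rintro ⟨s, hs⟩
    have hd : (Nat.rfind (fun s => Part.some (decide (D a s)))).Dom := by
      rw [Nat.rfind_dom]
      exact ⟨s, by simp [hs], fun _ => trivial⟩
    exact Part.dom_iff_mem.1 hd

theorem res_zero (k : ℕ) : res (fun _ => 0) k = List.replicate k 0 := by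
  unfold res
  induction k with
  | zero => rfl
  | succ k ih => rw [List.range_succ, List.map_append, ih, List.replicate_succ']; rfl

theorem re_of_s1 {α : Type} [Primcodable α] {A : α → Prop} (h : S1 (fun _ => 0) A) :
    REPred A := by
  obtain ⟨D, hD, hA⟩ := h
  have h1 : Primrec (fun k : ℕ => res (fun _ => 0) k) := by
    unfold res
    exact Primrec.list_map Primrec.list_range (Primrec.const 0).to₂
  have h2 : PrimrecRel (fun (a : α) (k : ℕ) => D (res (fun _ => 0) k) a) :=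
    hD.comp (h1.comp Primrec.snd) Primrec.fst
  exact (re_of_prim h2).of_eq (fun a => (hA a).symm)

/-- the graph of the universal function is `Σ⁰₁` -/
theorem s1_eval {X : ℕ → ℕ} :
    S1 X (fun p : (Nat.Partrec.Code × ℕ) × ℕ => p.2 ∈ Nat.Partrec.Code.eval p.1.1 p.1.2) := by
  have h1 : S1 X (fun p : (Nat.Partrec.Code × ℕ) × ℕ =>
      ∃ s : ℕ, Nat.Partrec.Code.evaln s p.1.1 p.1.2 = some p.2) := by
    refine S1.ex (A := fun (p : (Nat.Partrec.Code × ℕ) × ℕ) (s : ℕ) =>
      Nat.Partrec.Code.evaln s p.1.1 p.1.2 = some p.2) (S1.prim ?_)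
    refine Primrec.eq.comp ?_ ?_
    · refine Nat.Partrec.Code.primrec_evaln.comp (Primrec.pair (Primrec.pair Primrec.snd ?_) ?_)
      · exact Primrec.fst.comp (Primrec.fst.comp Primrec.fst)
      · exact Primrec.snd.comp (Primrec.fst.comp Primrec.fst)
    · exact Primrec.option_some.comp (Primrec.snd.comp Primrec.fst)
  refine h1.of_iff ?_
  rintro ⟨⟨c, x⟩, v⟩
  exact Nat.Partrec.Code.evaln_complete.symm

/-- selection -/
theorem select {A : ℕ × ℕ → Prop} (h : REPred A) :
    ∃ ψ : ℕ →. ℕ, Partrec ψ ∧ (∀ x i, i ∈ ψ x → A (x, i)) ∧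
      ∀ x, (∃ i, A (x, i)) → (ψ x).Dom := by
  classical
  obtain ⟨D, hD, hA⟩ := S1.of_re (X := fun _ => 0) h
  have h1 : Primrec (fun k : ℕ => res (fun _ => 0) k) := by
    unfold res
    exact Primrec.list_map Primrec.list_range (Primrec.const 0).to₂
  let B : ℕ → ℕ → Prop := fun x t => D (res (fun _ => 0) t.unpair.2) (x, t.unpair.1)
  have hB : PrimrecRel B := by
    have u : Primrec (fun p : ℕ × ℕ => p.2.unpair) := Primrec.unpair.comp Primrec.snd
    exact hD.comp (h1.comp (Primrec.snd.comp u)) (Primrec.pair Primrec.fst (Primrec.fst.comp u))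
  have h2 : Partrec (fun x : ℕ => Nat.rfind (fun s => Part.some (decide (B x s)))) :=
    Partrec.rfind (PrimrecRel.decide hB).to_comp.partrec
  refine ⟨fun x => (Nat.rfind (fun s => Part.some (decide (B x s)))).map (fun t => t.unpair.1),
    ?_, ?_, ?_⟩
  · exact h2.map ((Primrec.fst.comp (Primrec.unpair.comp Primrec.snd)).to_comp.to₂)
  · intro x i hi
    rw [Part.mem_map_iff] at hi
    obtain ⟨t, ht, rfl⟩ := hi
    have := Nat.rfind_spec ht
    have hb : B x t := by simpa [eq_comm] using this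
    exact (hA _).2 ⟨_, hb⟩
  · rintro x ⟨i, hi⟩
    obtain ⟨k, hk⟩ := (hA _).1 hi
    have hb : B x (Nat.pair i k) := by
      show D (res (fun _ => 0) (Nat.pair i k).unpair.2) (x, (Nat.pair i k).unpair.1)
      rw [Nat.unpair_pair]
      exact hk
    show (Nat.rfind _).Dom
    rw [Nat.rfind_dom]
    exact ⟨Nat.pair i k, by simp [hb], fun _ => trivial⟩

theorem RI.computable {X f : ℕ → ℕ} (h : Computable f) : RI X f :=
  Nat.Partrec.recursiveIn (Partrec.nat_iff.1 h.partrec)

/-- `X` avoids every partial recursive function with values below `k` -/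
def Av (X : ℕ → ℕ) (k : ℕ) : Prop :=
  ∀ θ : ℕ →. ℕ, Partrec θ → ∃ c : ℕ → ℕ, RI X c ∧ ∀ n, c n < k ∧ c n ∉ θ n

theorem Av.mono {X : ℕ → ℕ} {k k' : ℕ} (h : Av X k) (hk : k ≤ k') : Av X k' := by
  intro θ hθ
  obtain ⟨c, hc, h1⟩ := h θ hθ
  exact ⟨c, hc, fun n => ⟨lt_of_lt_of_le (h1 n).1 hk, (h1 n).2⟩⟩

theorem s1_graph' {X f : ℕ → ℕ} (h : RI X f) : S1 X (fun p : ℕ × ℕ => f p.1 = p.2) :=
  s1_graph (RecursiveIn.iff_nat.2 h)

/-- the graph of a partial recursive function -/
theorem s1_partrec {X : ℕ → ℕ} {θ : ℕ →. ℕ} (h : Partrec θ) :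
    S1 X (fun p : ℕ × ℕ => p.2 ∈ θ p.1) := by
  obtain ⟨c, hc⟩ := Nat.Partrec.Code.exists_code.1 (Partrec.nat_iff.1 h)
  have h1 : S1 X (fun p : ℕ × ℕ => p.2 ∈ Nat.Partrec.Code.eval c p.1) :=
    (s1_eval (X := X)).comp (Primrec.pair (Primrec.pair (Primrec.const c) Primrec.fst) Primrec.snd)
  exact h1.of_iff (fun p => by rw [hc])

theorem Av.sqrt {X : ℕ → ℕ} {k : ℕ} (hk : 0 < k) (h : Av X (k * k)) : Av X k := by
  intro θ hθ
  have hθ2 : Partrec (fun z : ℕ => (θ z.unpair.1).bind fun u => (θ z.unpair.2).map fun v =>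
      u * k + v) := by
    have hf : Computable (fun z : ℕ => z.unpair.1) :=
      (Primrec.fst.comp Primrec.unpair).to_comp
    have hs : Computable (fun z : ℕ => z.unpair.2) :=
      (Primrec.snd.comp Primrec.unpair).to_comp
    refine (hθ.comp hf).bind ?_
    refine Partrec.map (hθ.comp (hs.comp Computable.fst)) ?_
    refine Primrec.to_comp ?_
    exact Primrec.nat_add.comp (Primrec.nat_mul.comp (Primrec.snd.comp Primrec.fst)
      (Primrec.const k)) Primrec.snd
  obtain ⟨c2, hc2, h2⟩ := h _ hθ2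
  have hno : ∀ x y, ¬ (c2 (Nat.pair x y) / k ∈ θ x ∧ c2 (Nat.pair x y) % k ∈ θ y) := by
    rintro x y ⟨ha, hb⟩
    apply (h2 (Nat.pair x y)).2
    simp only [Nat.unpair_pair, Part.mem_bind_iff, Part.mem_map_iff]
    exact ⟨_, ha, _, hb, by rw [Nat.mul_comm]; exact Nat.div_add_mod _ _⟩
  by_cases hcase : ∃ x, ∀ y, c2 (Nat.pair x y) % k ∉ θ y
  · obtain ⟨x, hx⟩ := hcase
    refine ⟨fun y => c2 (Nat.pair x y) % k, ?_, fun y => ⟨Nat.mod_lt _ hk, hx y⟩⟩
    have h3 : RI X (fun n => n % k) :=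
      RI.prim (Primrec.nat_mod.comp Primrec.id (Primrec.const k))
    exact h3.comp (hc2.comp (RI.prim (Primrec₂.natPair.comp (Primrec.const x) Primrec.id)))
  · push Not at hcase
    have h4 : S1 X (fun p : ℕ × ℕ => c2 (Nat.pair p.1 p.2) % k ∈ θ p.2) := by
      have h5 : S1 X (fun p : ℕ × ℕ => ∃ w : ℕ, c2 (Nat.pair p.1 p.2) = w ∧ w % k ∈ θ p.2) := by
        refine S1.ex (A := fun (p : ℕ × ℕ) (w : ℕ) =>
          c2 (Nat.pair p.1 p.2) = w ∧ w % k ∈ θ p.2) (S1.and ?_ ?_)
        · exact (s1_graph' hc2).comp (Primrec.pair (Primrec₂.natPair.comp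
            (Primrec.fst.comp Primrec.fst) (Primrec.snd.comp Primrec.fst)) Primrec.snd)
        · exact (s1_partrec hθ).comp (Primrec.pair (Primrec.snd.comp Primrec.fst)
            (Primrec.nat_mod.comp Primrec.snd (Primrec.const k)))
      exact h5.of_iff (fun p => ⟨fun ⟨w, h6, h7⟩ => h6 ▸ h7, fun h6 => ⟨_, rfl, h6⟩⟩)
    obtain ⟨g, hg, hgs⟩ := S1.unif h4 (fun x => hcase x)
    have hgR : RI X g := RI.of_s1 hgs
    refine ⟨fun x => c2 (Nat.pair x (g x)) / k, ?_, fun x => ⟨?_, fun hx => ?_⟩⟩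
    · have h3 : RI X (fun n => n / k) :=
        RI.prim (Primrec.nat_div.comp Primrec.id (Primrec.const k))
      exact h3.comp (hc2.comp ((RI.prim Primrec.id).pair hgR))
    · exact Nat.div_lt_of_lt_mul (h2 _).1
    · exact hno x (g x) ⟨hx, hg x⟩

theorem Av.two {X : ℕ → ℕ} {k : ℕ} (h : Av X k) : Av X 2 := by
  have key : ∀ m, Av X (2 ^ 2 ^ m) → Av X 2 := by
    intro m
    induction m with
    | zero => intro h; simpa using h
    | succ m ih =>
      intro h
      apply ih
      apply Av.sqrt (Nat.pos_of_ne_zero (by positivity))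
      have : 2 ^ 2 ^ m * 2 ^ 2 ^ m = 2 ^ 2 ^ (m + 1) := by
        rw [← pow_add, pow_succ 2 m]; congr 1; omega
      rw [this]; exact h
  apply key k
  apply h.mono
  exact (Nat.lt_two_pow_self (n := k)).le.trans
    ((Nat.lt_two_pow_self (n := 2 ^ k)).le)

end Pool.Agent.helper63.RV
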