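import Pool.Agent.helper63.RV.E0

/-!
# Computably bounded diagonal functions
-/

namespace Pool.Agent.helper63.RV

open Encodable Pool.Agent.helper63.Diag Nat.Partrec

/-- a computable bound for the values up to `n` of a computable function -/
theorem bound_of {f : ℕ → ℕ} (hf : Computable f) : ∃ H : ℕ → ℕ, Computable H ∧
    ∀ n, ∀ i ≤ n, f i ≤ H n := by
  refine ⟨fun n => Nat.rec (f 0) (fun n r => max r (f (n + 1))) n, ?_, fun n => ?_⟩
  · refine Computable.nat_rec (f := fun n : ℕ => n) (g := fun _ => f 0)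
      (h := fun _ p => max p.2 (f (p.1 + 1))) Computable.id (Computable.const (f 0)) ?_
    have h1 : Computable (fun p : ℕ × (ℕ × ℕ) => f (p.2.1 + 1)) :=
      hf.comp (Primrec.succ.comp (Primrec.fst.comp Primrec.snd)).to_comp
    exact (Primrec.nat_max.to_comp).comp (Computable.snd.comp Computable.snd) h1
  · induction n with
    | zero => intro i hi; rw [Nat.le_zero.1 hi]; exact le_rfl
    | succ n ih =>
      intro i hi
      rcases Nat.lt_or_ge i (n + 1) with h | h
      · exact (ih i (by omega)).trans (le_max_left _ _)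
      · have : i = n + 1 := by omega
        rw [this]; exact le_max_right _ _

/-- a DNC function computes a diagonal function for every light ceer; if the former is computably
bounded, so is the latter -/
theorem light_bdd {X d : ℕ → ℕ} (hd : RI X d) (h : DN d) {E : ℕ → ℕ → Prop}
    (hE : Equivalence E) (hre : REPred fun p : ℕ × ℕ => E p.1 p.2)
    {f : ℕ → ℕ} (hf : Computable f) (hl : ∀ i j, i ≠ j → ¬ E (f i) (f j)) :
    ∃ g : ℕ → ℕ, RI X g ∧ (∀ x, ¬ E (g x) x) ∧
      ((∃ b : ℕ → ℕ, Computable b ∧ ∀ x, d x ≤ b x) →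
        ∃ b : ℕ → ℕ, Computable b ∧ ∀ x, g x ≤ b x) := by
  have hA : REPred (fun p : ℕ × ℕ => E (f p.2) p.1) := by
    have hc : Computable (fun p : ℕ × ℕ => (f p.2, p.1)) :=
      (hf.comp Computable.snd).pair Computable.fst
    have := Partrec.comp hre hc
    exact this
  obtain ⟨ψ, hψ, h1, h2⟩ := select hA
  obtain ⟨q, hq, h3, h4⟩ := DN.avoid hd h hψ
  refine ⟨fun z => f (d (q z)), (RI.computable hf).comp h3, fun x hx => ?_, ?_⟩
  · obtain ⟨i, hi⟩ := Part.dom_iff_mem.1 (h2 x ⟨d (q x), hx⟩)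
    have h5 := h1 _ _ hi
    have h6 : i ≠ d (q x) := fun h7 => h4 _ (h7 ▸ hi)
    exact hl _ _ h6 (hE.trans h5 (hE.symm hx))
  · rintro ⟨b, hb, hdb⟩
    obtain ⟨H, hH, hHf⟩ := bound_of hf
    exact ⟨fun x => H (b (q x)), hH.comp (hb.comp hq.to_comp), fun x => hHf _ _ (hdb _)⟩

/-- a computably bounded diagonal function for `E0` computes a computably bounded DNC function -/
theorem dn_of_E0_bdd {X g : ℕ → ℕ} (hg : RI X g) (h : ∀ u, ¬ E0 (g u) u)
    (hb : ∃ b : ℕ → ℕ, Computable b ∧ ∀ x, g x ≤ b x) :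
    ∃ d : ℕ → ℕ, RI X d ∧ DN d ∧ ∃ b : ℕ → ℕ, Computable b ∧ ∀ x, d x ≤ b x := by
  obtain ⟨e, he⟩ := idx part_diag
  have hp : Primrec (fun n : ℕ => Nat.pair e n) := Primrec₂.natPair.comp (Primrec.const e) Primrec.id
  obtain ⟨b, hb, hgb⟩ := hb
  refine ⟨fun n => g (Nat.pair e n), hg.comp (RI.prim hp), fun n m hm hgm => ?_,
    fun n => b (Nat.pair e n), hb.comp hp.to_comp, fun n => hgb _⟩
  have h1 : F (Nat.pair e n) m := (he n m).2 hm
  apply h (Nat.pair e n)
  change g (Nat.pair e n) = m at hgm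
  rw [hgm]
  exact E0_equiv.symm (E0_of_F h1)

end Pool.Agent.helper63.RV
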