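import Pool.Agent.helper63.RV.E0

/-!
# A dark ceer all of whose diagonal functions compute DNC functions: construction
-/

namespace Pool.Agent.helper63.RV

open Encodable Pool.Agent.helper63.Diag Nat.Partrec

/-- following the list of merges `(requirement, old, new)` -/
def rep (M : List (ℕ × ℕ × ℕ)) (x : ℕ) : ℕ :=
  M.foldl (fun y p => if y = p.2.1 then p.2.2 else y) x

theorem rep_append (M M' : List (ℕ × ℕ × ℕ)) (x : ℕ) : rep (M ++ M') x = rep M' (rep M x) := by
  unfold rep; rw [List.foldl_append]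

theorem rep_cons (p : ℕ × ℕ × ℕ) (M : List (ℕ × ℕ × ℕ)) (x : ℕ) :
    rep (p :: M) x = rep M (if x = p.2.1 then p.2.2 else x) := rfl

theorem prim_rep : Primrec₂ rep := by
  have h : Primrec (fun q : List (ℕ × ℕ × ℕ) × ℕ =>
      q.1.foldl (fun y p => if y = p.2.1 then p.2.2 else y) q.2) := by
    refine Primrec.list_foldl Primrec.fst Primrec.snd
      (h := fun (_ : List (ℕ × ℕ × ℕ) × ℕ) (z : ℕ × (ℕ × ℕ × ℕ)) =>
        if z.1 = z.2.2.1 then z.2.2.2 else z.1) ?_
    refine Primrec.ite ?_ ?_ ?_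
    · exact Primrec.eq.comp (Primrec.fst.comp Primrec.snd)
        (Primrec.fst.comp (Primrec.snd.comp (Primrec.snd.comp Primrec.snd)))
    · exact Primrec.snd.comp (Primrec.snd.comp (Primrec.snd.comp Primrec.snd))
    · exact Primrec.fst.comp Primrec.snd
  exact h

theorem rep_of_notMem {M : List (ℕ × ℕ × ℕ)} {x : ℕ} (h : ∀ p ∈ M, p.2.1 ≠ x) : rep M x = x := by
  induction M with
  | nil => rfl
  | cons p M ih =>
    rw [rep_cons, if_neg (fun h' => h p List.mem_cons_self h'.symm)]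
    exact ih (fun q hq => h q (List.mem_cons_of_mem _ hq))

theorem rep_le {M : List (ℕ × ℕ × ℕ)} (h : ∀ p ∈ M, p.2.2 ≤ p.2.1) (x : ℕ) :
    rep M x ≤ x := by
  induction M generalizing x with
  | nil => exact le_rfl
  | cons p M ih =>
    rw [rep_cons]
    refine (ih (fun q hq => h q (List.mem_cons_of_mem _ hq)) _).trans ?_
    split_ifs with h1
    · rw [h1]; exact h p List.mem_cons_self
    · exact le_rfl

/-- the element of the interval of the requirement `k` used for coding -/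
def pick (M : List (ℕ × ℕ × ℕ)) (k : ℕ) : ℕ :=
  Nat.findGreatest (fun x => k * k ≤ x ∧ rep M x = x) ((k + 1) * (k + 1) - 1)

theorem prim_pick : Primrec₂ pick := by
  have h : Primrec (fun q : List (ℕ × ℕ × ℕ) × ℕ =>
      Nat.findGreatest (fun x => q.2 * q.2 ≤ x ∧ rep q.1 x = x) ((q.2 + 1) * (q.2 + 1) - 1)) := by
    refine Primrec.nat_findGreatest (f := fun q : List (ℕ × ℕ × ℕ) × ℕ =>
      ((q.2 + 1) * (q.2 + 1) - 1)) (p := fun q x => q.2 * q.2 ≤ x ∧ rep q.1 x = x) ?_ ?_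
    · exact Primrec.nat_sub.comp (Primrec.nat_mul.comp (Primrec.succ.comp Primrec.snd)
        (Primrec.succ.comp Primrec.snd)) (Primrec.const 1)
    · refine PrimrecPred.and ?_ ?_
      · exact Primrec.nat_le.comp (Primrec.nat_mul.comp (Primrec.snd.comp Primrec.fst)
          (Primrec.snd.comp Primrec.fst)) Primrec.snd
      · exact Primrec.eq.comp (prim_rep.comp (Primrec.fst.comp Primrec.fst) Primrec.snd)
          Primrec.snd
  exact h

/-- stage-`t` value of the `e`-th partial recursive function at `x` -/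
def ev (t e x : ℕ) : Option ℕ := Code.evaln t (Denumerable.ofNat Code e) x

theorem prim_ev {α : Type} [Primcodable α] {t e x : α → ℕ} (ht : Primrec t) (he : Primrec e)
    (hx : Primrec x) : Primrec (fun a => ev (t a) (e a) (x a)) :=
  Code.primrec_evaln.comp (Primrec.pair (Primrec.pair ht ((Primrec.ofNat _).comp he)) hx)

/-- the pair which the stage `s` would like to merge, coded by an option -/
def cand (s : ℕ) (M : List (ℕ × ℕ × ℕ)) : Option (ℕ × ℕ) :=
  if s.unpair.1 % 2 = 0 then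
    (ev s.unpair.2.unpair.1 (s.unpair.1 / 2) s.unpair.2.unpair.2.unpair.1).bind fun a =>
      (ev s.unpair.2.unpair.1 (s.unpair.1 / 2) s.unpair.2.unpair.2.unpair.2).map fun b => (a, b)
  else (ev s.unpair.2 (s.unpair.1 / 2) (s.unpair.1 / 2)).map fun v =>
    (pick M s.unpair.1, (Denumerable.ofNat (List ℕ) v).getD (pick M s.unpair.1) 0)

theorem prim_cand : Primrec₂ cand := by
  have u1 : Primrec (fun q : ℕ × List (ℕ × ℕ × ℕ) => q.1.unpair.1) :=
    Primrec.fst.comp (Primrec.unpair.comp Primrec.fst)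
  have u2 : Primrec (fun q : ℕ × List (ℕ × ℕ × ℕ) => q.1.unpair.2) :=
    Primrec.snd.comp (Primrec.unpair.comp Primrec.fst)
  have u21 : Primrec (fun q : ℕ × List (ℕ × ℕ × ℕ) => q.1.unpair.2.unpair.1) :=
    Primrec.fst.comp (Primrec.unpair.comp u2)
  have u22 : Primrec (fun q : ℕ × List (ℕ × ℕ × ℕ) => q.1.unpair.2.unpair.2) :=
    Primrec.snd.comp (Primrec.unpair.comp u2)
  have u221 : Primrec (fun q : ℕ × List (ℕ × ℕ × ℕ) => q.1.unpair.2.unpair.2.unpair.1) :=
    Primrec.fst.comp (Primrec.unpair.comp u22)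
  have u222 : Primrec (fun q : ℕ × List (ℕ × ℕ × ℕ) => q.1.unpair.2.unpair.2.unpair.2) :=
    Primrec.snd.comp (Primrec.unpair.comp u22)
  have hh : Primrec (fun q : ℕ × List (ℕ × ℕ × ℕ) => q.1.unpair.1 / 2) :=
    Primrec.nat_div.comp u1 (Primrec.const 2)
  have h : Primrec (fun q : ℕ × List (ℕ × ℕ × ℕ) => if q.1.unpair.1 % 2 = 0 then
    (ev q.1.unpair.2.unpair.1 (q.1.unpair.1 / 2) q.1.unpair.2.unpair.2.unpair.1).bind fun a =>
      (ev q.1.unpair.2.unpair.1 (q.1.unpair.1 / 2) q.1.unpair.2.unpair.2.unpair.2).map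
        fun b => (a, b)
  else (ev q.1.unpair.2 (q.1.unpair.1 / 2) (q.1.unpair.1 / 2)).map fun v =>
    (pick q.2 q.1.unpair.1, (Denumerable.ofNat (List ℕ) v).getD (pick q.2 q.1.unpair.1) 0)) := by
    refine Primrec.ite ?_ ?_ ?_
    · exact Primrec.eq.comp (Primrec.nat_mod.comp u1 (Primrec.const 2)) (Primrec.const 0)
    · refine Primrec.option_bind (prim_ev u21 hh u221) ?_
      refine Primrec.option_map (prim_ev (u21.comp Primrec.fst) (hh.comp Primrec.fst)
        (u222.comp Primrec.fst)) ?_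
      exact Primrec.pair (Primrec.snd.comp Primrec.fst) Primrec.snd
    · refine Primrec.option_map (prim_ev u2 hh hh) ?_
      have hp : Primrec (fun w : (ℕ × List (ℕ × ℕ × ℕ)) × ℕ => pick w.1.2 w.1.1.unpair.1) :=
        prim_pick.comp (Primrec.snd.comp Primrec.fst) (u1.comp Primrec.fst)
      refine Primrec.pair hp ?_
      exact (Primrec.list_getD 0).comp ((Primrec.ofNat (List ℕ)).comp Primrec.snd) hp
  exact h

/-- one stage with a given pair -/
def act (k : ℕ) (M : List (ℕ × ℕ × ℕ)) (w : ℕ × ℕ) : List (ℕ × ℕ × ℕ) :=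
  if (min (rep M w.1) (rep M w.2) < max (rep M w.1) (rep M w.2) ∧
      k * k ≤ max (rep M w.1) (rep M w.2)) ∧ ∀ r ∈ M, r.1 ≠ k
  then M ++ [(k, max (rep M w.1) (rep M w.2), min (rep M w.1) (rep M w.2))] else M

/-- one stage -/
def step (s : ℕ) (M : List (ℕ × ℕ × ℕ)) : List (ℕ × ℕ × ℕ) :=
  Option.casesOn (cand s M) M (fun w => act s.unpair.1 M w)

theorem prim_step : Primrec₂ step := by
  have hk : Primrec (fun z : (ℕ × List (ℕ × ℕ × ℕ)) × (ℕ × ℕ) => z.1.1.unpair.1) :=
    Primrec.fst.comp (Primrec.unpair.comp (Primrec.fst.comp Primrec.fst))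
  have h1 : Primrec (fun z : (ℕ × List (ℕ × ℕ × ℕ)) × (ℕ × ℕ) => rep z.1.2 z.2.1) :=
    prim_rep.comp (Primrec.snd.comp Primrec.fst) (Primrec.fst.comp Primrec.snd)
  have h2 : Primrec (fun z : (ℕ × List (ℕ × ℕ × ℕ)) × (ℕ × ℕ) => rep z.1.2 z.2.2) :=
    prim_rep.comp (Primrec.snd.comp Primrec.fst) (Primrec.snd.comp Primrec.snd)
  have hmax := Primrec.nat_max.comp h1 h2
  have hmin := Primrec.nat_min.comp h1 h2
  have hact : Primrec (fun z : (ℕ × List (ℕ × ℕ × ℕ)) × (ℕ × ℕ) =>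
      act z.1.1.unpair.1 z.1.2 z.2) := by
    unfold act
    refine Primrec.ite (PrimrecPred.and (PrimrecPred.and ?_ ?_) ?_) ?_ ?_
    · exact Primrec.nat_lt.comp hmin hmax
    · exact Primrec.nat_le.comp (Primrec.nat_mul.comp hk hk) hmax
    · refine PRall (R := fun (z : (ℕ × List (ℕ × ℕ × ℕ)) × (ℕ × ℕ)) (r : ℕ × ℕ × ℕ) =>
        r.1 ≠ z.1.1.unpair.1) ?_ (Primrec.snd.comp Primrec.fst)
      exact PrimrecPred.not (Primrec.eq.comp (Primrec.fst.comp Primrec.snd) (hk.comp Primrec.fst))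
    · exact Primrec.list_append.comp (Primrec.snd.comp Primrec.fst)
        (Primrec.list_cons.comp (Primrec.pair hk (Primrec.pair hmax hmin)) (Primrec.const []))
    · exact Primrec.snd.comp Primrec.fst
  have h : Primrec (fun q : ℕ × List (ℕ × ℕ × ℕ) =>
      (Option.casesOn (cand q.1 q.2) q.2 (fun w => act q.1.unpair.1 q.2 w) :
        List (ℕ × ℕ × ℕ))) :=
    Primrec.option_casesOn (prim_cand.comp Primrec.fst Primrec.snd) Primrec.snd hact
  exact h

/-- the list of merges before stage `s` -/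
def Ms : ℕ → List (ℕ × ℕ × ℕ)
  | 0 => []
  | s + 1 => step s (Ms s)

theorem prim_Ms : Primrec Ms := by
  have h : Primrec (fun s : ℕ => (Nat.rec [] (fun s IH => step s IH) s :
      List (ℕ × ℕ × ℕ))) := by
    refine Primrec.nat_rec' (f := fun s : ℕ => s) (g := fun _ => []) (h := fun _ p => step p.1 p.2)
      Primrec.id (Primrec.const []) ?_
    exact prim_step.comp (Primrec.fst.comp Primrec.snd) (Primrec.snd.comp Primrec.snd)
  refine h.of_eq (fun s => ?_)
  induction s with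
  | zero => rfl
  | succ s ih => show step s _ = step s _; rw [ih]

/-- the equivalence relation -/
def E1 (u v : ℕ) : Prop := ∃ s, rep (Ms s) u = rep (Ms s) v

theorem E1_re : REPred (fun p : ℕ × ℕ => E1 p.1 p.2) := by
  refine re_of_prim (D := fun (p : ℕ × ℕ) (s : ℕ) => rep (Ms s) p.1 = rep (Ms s) p.2) ?_
  have hM : Primrec (fun q : (ℕ × ℕ) × ℕ => Ms q.2) := prim_Ms.comp Primrec.snd
  exact Primrec.eq.comp (prim_rep.comp hM (Primrec.fst.comp Primrec.fst))
    (prim_rep.comp hM (Primrec.snd.comp Primrec.fst))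

/-- what happens at a stage -/
theorem Ms_succ (s : ℕ) : Ms (s + 1) = Ms s ∨ ∃ w, cand s (Ms s) = some w ∧
    rep (Ms s) w.1 ≠ rep (Ms s) w.2 ∧
    s.unpair.1 * s.unpair.1 ≤ max (rep (Ms s) w.1) (rep (Ms s) w.2) ∧
    (∀ r ∈ Ms s, r.1 ≠ s.unpair.1) ∧
    Ms (s + 1) = Ms s ++ [(s.unpair.1, max (rep (Ms s) w.1) (rep (Ms s) w.2),
      min (rep (Ms s) w.1) (rep (Ms s) w.2))] := by
  show step s (Ms s) = _ ∨ _
  unfold step
  rcases h : cand s (Ms s) with _ | w
  · exact Or.inl rfl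
  · show act _ _ _ = _ ∨ _
    by_cases h2 : (min (rep (Ms s) w.1) (rep (Ms s) w.2) < max (rep (Ms s) w.1) (rep (Ms s) w.2) ∧
      s.unpair.1 * s.unpair.1 ≤ max (rep (Ms s) w.1) (rep (Ms s) w.2)) ∧
      ∀ r ∈ Ms s, r.1 ≠ s.unpair.1
    · refine Or.inr ⟨w, rfl, ?_, h2.1.2, h2.2, ?_⟩
      · intro h3
        have := h2.1.1
        rw [h3] at this
        simp at this
      · show step s (Ms s) = _
        unfold step
        rw [h]
        show act _ _ _ = _
        unfold act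
        rw [if_pos h2]
    · left
      unfold act
      rw [if_neg h2]

/-- a stage with an allowed pair -/
theorem Ms_act {s : ℕ} {w : ℕ × ℕ} (h : cand s (Ms s) = some w)
    (hk : s.unpair.1 * s.unpair.1 ≤ max (rep (Ms s) w.1) (rep (Ms s) w.2))
    (hr : ∀ r ∈ Ms s, r.1 ≠ s.unpair.1) :
    rep (Ms (s + 1)) w.1 = rep (Ms (s + 1)) w.2 := by
  have hM : Ms (s + 1) = act s.unpair.1 (Ms s) w := by
    show step s (Ms s) = _
    unfold step
    rw [h]
  rw [hM]
  unfold act
  rcases lt_trichotomy (rep (Ms s) w.1) (rep (Ms s) w.2) with h1 | h1 | h1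
  · rw [if_pos ⟨⟨by rw [min_eq_left h1.le, max_eq_right h1.le]; exact h1, hk⟩, hr⟩,
      min_eq_left h1.le, max_eq_right h1.le, rep_append, rep_append, rep_cons, rep_cons,
      if_neg (ne_of_lt h1), if_pos rfl]
  · rw [if_neg (by rw [h1]; simp)]
    exact h1
  · rw [if_pos ⟨⟨by rw [min_eq_right h1.le, max_eq_left h1.le]; exact h1, hk⟩, hr⟩,
      min_eq_right h1.le, max_eq_left h1.le, rep_append, rep_append, rep_cons, rep_cons,
      if_pos rfl, if_neg (ne_of_lt h1)]

end Pool.Agent.helper63.RV
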