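import Pool.Agent.helper63.RV.Dark1
import Pool.Agent.helper63.RV.Uniform

/-!
# A dark ceer all of whose diagonal functions compute DNC functions: verification
-/

namespace Pool.Agent.helper63.RV

open Encodable Pool.Agent.helper63.Diag Nat.Partrec

theorem Ms_inv (s : ℕ) : (∀ r ∈ Ms s, r.2.2 ≤ r.2.1 ∧ r.1 * r.1 ≤ r.2.1) ∧
    ∀ r ∈ Ms s, ∀ r' ∈ Ms s, r.1 = r'.1 → r = r' := by
  induction s with
  | zero => exact ⟨fun r hr => absurd hr List.not_mem_nil, fun r hr => absurd hr List.not_mem_nil⟩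
  | succ s ih =>
    rcases Ms_succ s with h | ⟨w, -, h2, h3, h4, h5⟩
    · rw [h]; exact ih
    · rw [h5]
      constructor
      · intro r hr
        rcases List.mem_append.1 hr with hr | hr
        · exact ih.1 r hr
        · rw [List.mem_singleton.1 hr]
          exact ⟨min_le_max, h3⟩
      · intro r hr r' hr' he
        rcases List.mem_append.1 hr with hr | hr <;> rcases List.mem_append.1 hr' with hr' | hr'
        · exact ih.2 r hr r' hr' he
        · rw [List.mem_singleton.1 hr'] at he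
          exact absurd he (h4 r hr)
        · rw [List.mem_singleton.1 hr] at he
          exact absurd he.symm (h4 r' hr')
        · rw [List.mem_singleton.1 hr, List.mem_singleton.1 hr']

theorem Ms_mono {s s' : ℕ} (h : s ≤ s') : ∃ L, Ms s' = Ms s ++ L := by
  induction s', h using Nat.le_induction with
  | base => exact ⟨[], by simp⟩
  | succ s' _ ih =>
    obtain ⟨L, hL⟩ := ih
    rcases Ms_succ s' with h | ⟨w, -, -, -, -, h5⟩
    · exact ⟨L, by rw [h, hL]⟩
    · exact ⟨_, by rw [h5, hL, List.append_assoc]⟩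

theorem rep_mono {s s' : ℕ} (h : s ≤ s') (x : ℕ) : rep (Ms s') x ≤ rep (Ms s) x := by
  obtain ⟨L, hL⟩ := Ms_mono h
  rw [hL, rep_append]
  apply rep_le
  intro p hp
  exact ((Ms_inv s').1 p (by rw [hL]; exact List.mem_append_right _ hp)).1

theorem E1_mono {s s' u v : ℕ} (h : s ≤ s') (he : rep (Ms s) u = rep (Ms s) v) :
    rep (Ms s') u = rep (Ms s') v := by
  obtain ⟨L, hL⟩ := Ms_mono h
  rw [hL, rep_append, rep_append, he]

theorem E1_equiv : Equivalence E1 := by
  refine ⟨fun u => ⟨0, rfl⟩, fun ⟨s, h⟩ => ⟨s, h.symm⟩, ?_⟩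
  rintro u v w ⟨s, h⟩ ⟨s', h'⟩
  exact ⟨max s s', (E1_mono (le_max_left _ _) h).trans (E1_mono (le_max_right _ _) h')⟩

/-- counting lemma -/
theorem card_killed {M : List (ℕ × ℕ × ℕ)} (h2 : ∀ r ∈ M, ∀ r' ∈ M, r.1 = r'.1 → r = r')
    {T J : Finset ℕ} (h : ∀ r ∈ M, r.2.1 ∈ T → r.1 ∈ J) {B : Finset ℕ}
    (hB : ∀ p ∈ B, p ∈ T ∧ ∃ r ∈ M, r.2.1 = p) : B.card ≤ J.card := by
  classical
  refine Finset.card_le_card_of_injOn
    (fun p => if h : ∃ r ∈ M, r.2.1 = p then (Classical.choose h).1 else 0) ?_ ?_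
  · intro p hp
    obtain ⟨hT, hr⟩ := hB p hp
    have h3 := Classical.choose_spec hr
    show (if h : ∃ r ∈ M, r.2.1 = p then (Classical.choose h).1 else 0) ∈ _
    rw [dif_pos hr]
    exact h _ h3.1 (by rw [h3.2]; exact hT)
  · intro p hp p' hp' he
    obtain ⟨-, hr⟩ := hB p hp
    obtain ⟨-, hr'⟩ := hB p' hp'
    have h3 := Classical.choose_spec hr
    have h3' := Classical.choose_spec hr'
    change (if h : ∃ r ∈ M, r.2.1 = p then (Classical.choose h).1 else 0) =
      (if h : ∃ r ∈ M, r.2.1 = p' then (Classical.choose h).1 else 0) at he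
    rw [dif_pos hr, dif_pos hr'] at he
    have := h2 _ h3.1 _ h3'.1 he
    rw [← h3.2, ← h3'.2, this]

/-- the picked element is alive and in its interval -/
theorem pick_spec {s k : ℕ} (hk : ∀ r ∈ Ms s, r.1 ≠ k) :
    k * k ≤ pick (Ms s) k ∧ pick (Ms s) k < (k + 1) * (k + 1) ∧
      rep (Ms s) (pick (Ms s) k) = pick (Ms s) k := by
  classical
  have hex : ∃ x, x ≤ (k + 1) * (k + 1) - 1 ∧ (k * k ≤ x ∧ rep (Ms s) x = x) := by
    by_contra hcon
    push Not at hcon
    have h1 : ∀ x ∈ Finset.Ico (k * k) ((k + 1) * (k + 1)),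
        x ∈ Finset.Ico (k * k) ((k + 1) * (k + 1)) ∧ ∃ r ∈ Ms s, r.2.1 = x := by
      intro x hx
      refine ⟨hx, ?_⟩
      by_contra h2
      push Not at h2
      rw [Finset.mem_Ico] at hx
      exact hcon x (by omega) hx.1 (rep_of_notMem h2)
    have h2 := card_killed (Ms_inv s).2 (T := Finset.Ico (k * k) ((k + 1) * (k + 1)))
      (J := Finset.range k) (fun r hr hT => by
        have h3 := ((Ms_inv s).1 r hr).2
        have h4 := hk r hr
        rw [Finset.mem_Ico] at hT
        rw [Finset.mem_range]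
        have h5 : r.1 < k + 1 := by
          by_contra h6
          push Not at h6
          have := Nat.mul_le_mul h6 h6
          omega
        omega) h1
    rw [Nat.card_Ico, Finset.card_range] at h2
    have : (k + 1) * (k + 1) = k * k + 2 * k + 1 := by ring
    omega
  obtain ⟨x, hx, hx2⟩ := hex
  have h1 := Nat.findGreatest_spec (P := fun x => k * k ≤ x ∧ rep (Ms s) x = x) hx hx2
  have h2 : pick (Ms s) k ≤ (k + 1) * (k + 1) - 1 := Nat.findGreatest_le _
  refine ⟨h1.1, ?_, h1.2⟩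
  have : 0 < (k + 1) * (k + 1) := by positivity
  omega

/-- where the entries come from -/
theorem Ms_origin {s : ℕ} {r : ℕ × ℕ × ℕ} (hr : r ∈ Ms s) : ∃ s' w, s'.unpair.1 = r.1 ∧
    cand s' (Ms s') = some w ∧ rep (Ms s') w.1 ≠ rep (Ms s') w.2 ∧ E1 w.1 w.2 ∧
    ∀ r' ∈ Ms s', r'.1 ≠ s'.unpair.1 := by
  induction s with
  | zero => exact absurd hr List.not_mem_nil
  | succ s ih =>
    rcases Ms_succ s with h | ⟨w, h1, h2, h3, h4, h5⟩
    · exact ih (by rwa [h] at hr)
    · rw [h5] at hr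
      rcases List.mem_append.1 hr with hr | hr
      · exact ih hr
      · refine ⟨s, w, ?_, h1, h2, ⟨s + 1, Ms_act h1 h3 h4⟩, h4⟩
        rw [List.mem_singleton.1 hr]

theorem alive_infinite : {x : ℕ | ∀ s, ∀ r ∈ Ms s, r.2.1 ≠ x}.Infinite := by
  classical
  intro hfin
  let A : Finset ℕ := hfin.toFinset
  have hA : ∀ x, x ∉ A → ∃ s, ∃ r ∈ Ms s, r.2.1 = x := by
    intro x hx
    rw [Set.Finite.mem_toFinset] at hx
    by_contra hcon
    push Not at hcon
    exact hx hcon
  let N := A.card + 2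
  let B : Finset ℕ := (Finset.range (N * N)) \ A
  have hst : ∀ B' : Finset ℕ, (∀ x ∈ B', x ∉ A) → ∃ s, ∀ x ∈ B', ∃ r ∈ Ms s, r.2.1 = x := by
    intro B'
    induction B' using Finset.induction_on with
    | empty => intro _; exact ⟨0, fun x hx => absurd hx (Finset.notMem_empty x)⟩
    | insert a B' _ ih =>
      intro h
      obtain ⟨s, hs⟩ := ih (fun x hx => h x (Finset.mem_insert_of_mem hx))
      obtain ⟨s', r, hr, hra⟩ := hA a (h a (Finset.mem_insert_self _ _))
      refine ⟨max s s', fun x hx => ?_⟩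
      rcases Finset.mem_insert.1 hx with rfl | hx
      · obtain ⟨L, hL⟩ := Ms_mono (le_max_right s s')
        exact ⟨r, by rw [hL]; exact List.mem_append_left _ hr, hra⟩
      · obtain ⟨L, hL⟩ := Ms_mono (le_max_left s s')
        obtain ⟨r', hr', hrx⟩ := hs x hx
        exact ⟨r', by rw [hL]; exact List.mem_append_left _ hr', hrx⟩
  obtain ⟨s, hs⟩ := hst B (fun x hx => (Finset.mem_sdiff.1 hx).2)
  have h1 := card_killed (Ms_inv s).2 (T := Finset.range (N * N)) (J := Finset.range N)
    (fun r hr hT => by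
      have h3 := ((Ms_inv s).1 r hr).2
      rw [Finset.mem_range] at hT ⊢
      by_contra h6
      push Not at h6
      have := Nat.mul_le_mul h6 h6
      omega) (B := B) (fun p hp => ⟨(Finset.mem_sdiff.1 hp).1, hs p hp⟩)
  have h2 : N * N ≤ A.card + B.card := by
    have : (Finset.range (N * N)).card ≤ (A ∪ B).card := by
      apply Finset.card_le_card
      intro x hx
      by_cases h : x ∈ A
      · exact Finset.mem_union_left _ h
      · exact Finset.mem_union_right _ (Finset.mem_sdiff.2 ⟨hx, h⟩)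
    rw [Finset.card_range] at this
    exact this.trans (Finset.card_union_le _ _)
  rw [Finset.card_range] at h1
  have h3 : N * N = A.card * A.card + 4 * A.card + 4 := by
    show (A.card + 2) * (A.card + 2) = _
    ring
  have h4 : N = A.card + 2 := rfl
  have h5 := Nat.zero_le (A.card * A.card)
  omega

theorem E1_inf (L : List ℕ) : ∃ x, ∀ y ∈ L, ¬ E1 x y := by
  classical
  by_contra hcon
  push Not at hcon
  choose c hc hE using hcon
  refine alive_infinite ?_
  refine Set.Finite.of_finite_image (f := c) ((L.toFinset.finite_toSet).subset ?_) ?_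
  · rintro _ ⟨x, -, rfl⟩
    simpa using hc x
  · intro x hx y hy hxy
    have h1 : E1 x y := E1_equiv.trans (hE x) (E1_equiv.symm (by rw [hxy]; exact hE y))
    obtain ⟨s, hs⟩ := h1
    rwa [rep_of_notMem (hx s), rep_of_notMem (hy s)] at hs

theorem cand_even {s : ℕ} {M : List (ℕ × ℕ × ℕ)} {w : ℕ × ℕ} {e : ℕ}
    (hs : s.unpair.1 = 2 * e) : cand s M = some w ↔
      ev s.unpair.2.unpair.1 e s.unpair.2.unpair.2.unpair.1 = some w.1 ∧
      ev s.unpair.2.unpair.1 e s.unpair.2.unpair.2.unpair.2 = some w.2 := by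
  unfold cand
  rw [hs, if_pos (by omega), Nat.mul_div_cancel_left e (by omega : 0 < 2)]
  rw [Option.bind_eq_some_iff]
  constructor
  · rintro ⟨a, h1, h2⟩
    rw [Option.map_eq_some_iff] at h2
    obtain ⟨b, h2, rfl⟩ := h2
    exact ⟨h1, h2⟩
  · rintro ⟨h1, h2⟩
    exact ⟨_, h1, by rw [h2]; rfl⟩

theorem cand_odd {s : ℕ} {M : List (ℕ × ℕ × ℕ)} {w : ℕ × ℕ} {m : ℕ}
    (hs : s.unpair.1 = 2 * m + 1) : cand s M = some w ↔
      ∃ v, ev s.unpair.2 m m = some v ∧ (pick M (2 * m + 1),
        (Denumerable.ofNat (List ℕ) v).getD (pick M (2 * m + 1)) 0) = w := by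
  unfold cand
  have h1 : (2 * m + 1) / 2 = m := by omega
  rw [hs, if_neg (by omega), h1, Option.map_eq_some_iff]

theorem E1_not_light : ¬ ∃ f : ℕ → ℕ, Computable f ∧ ∀ i j, i ≠ j → ¬ E1 (f i) (f j) := by
  classical
  rintro ⟨f, hf, hl⟩
  obtain ⟨c, hc⟩ := Code.exists_code.1 (Partrec.nat_iff.1 hf.partrec)
  obtain ⟨e, he⟩ : ∃ e, Denumerable.ofNat Code e = c := ⟨encode c, Denumerable.ofNat_encode c⟩
  have hev : ∀ i, ∃ t, ∀ t' ≥ t, ev t' e i = some (f i) := by
    intro i
    have h1 : f i ∈ Code.eval c i := by rw [hc]; exact Part.mem_some _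
    obtain ⟨t, ht⟩ := Code.evaln_complete.1 h1
    refine ⟨t, fun t' h' => ?_⟩
    unfold ev
    rw [he]
    exact Code.evaln_mono h' ht
  have hev2 : ∀ {t i v}, ev t e i = some v → v = f i := by
    intro t i v h
    unfold ev at h
    rw [he] at h
    have := Code.evaln_sound h
    rw [hc] at this
    exact Part.mem_some_iff.1 this
  let k := 2 * e
  have h1 : ∃ i, ∀ s, k * k ≤ rep (Ms s) (f i) := by
    by_contra hcon
    push Not at hcon
    choose st hst using hcon
    let S := (Finset.range (k * k + 1)).sup st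
    have h2 : ∀ i ∈ Finset.range (k * k + 1), rep (Ms S) (f i) ∈ Finset.range (k * k) := by
      intro i hi
      rw [Finset.mem_range]
      exact lt_of_le_of_lt (rep_mono (Finset.le_sup (f := st) hi) _) (hst i)
    obtain ⟨i, hi, j, hj, hij, h3⟩ := Finset.exists_ne_map_eq_of_card_lt_of_maps_to
      (by rw [Finset.card_range, Finset.card_range]; omega) h2
    exact hl i j hij ⟨S, h3⟩
  obtain ⟨i, hi⟩ := h1
  obtain ⟨t1, ht1⟩ := hev i
  obtain ⟨t2, ht2⟩ := hev (i + 1)
  let s := Nat.pair k (Nat.pair (max t1 t2) (Nat.pair i (i + 1)))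
  have hs : s.unpair.1 = 2 * e := by simp [s, k]
  have hcand : cand s (Ms s) = some (f i, f (i + 1)) := by
    rw [cand_even hs]
    simp only [s, Nat.unpair_pair]
    exact ⟨ht1 _ (le_max_left _ _), ht2 _ (le_max_right _ _)⟩
  by_cases hk : ∀ r ∈ Ms s, r.1 ≠ s.unpair.1
  · refine hl i (i + 1) (by omega) ⟨s + 1, Ms_act hcand ?_ hk⟩
    rw [hs]
    exact (hi s).trans (le_max_left _ _)
  · push Not at hk
    obtain ⟨r, hr, hrk⟩ := hk
    obtain ⟨s', w, h2, h3, h4, h5, -⟩ := Ms_origin hr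
    have h6 : s'.unpair.1 = 2 * e := by rw [h2, hrk, hs]
    rw [cand_even h6] at h3
    have h7 := hev2 h3.1
    have h8 := hev2 h3.2
    rw [h7, h8] at h4 h5
    refine hl _ _ (fun h9 => h4 ?_) h5
    rw [h9]

/-- the coding -/
theorem E1_coding {m v : ℕ} (h : v ∈ Code.eval (Denumerable.ofNat Code m) m) :
    ∃ x, x < (2 * m + 2) * (2 * m + 2) ∧ E1 x ((Denumerable.ofNat (List ℕ) v).getD x 0) := by
  obtain ⟨t, ht⟩ := Code.evaln_complete.1 h
  let s := Nat.pair (2 * m + 1) t
  have hs : s.unpair.1 = 2 * m + 1 := by simp [s]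
  have hcand : cand s (Ms s) = some (pick (Ms s) (2 * m + 1),
      (Denumerable.ofNat (List ℕ) v).getD (pick (Ms s) (2 * m + 1)) 0) := by
    rw [cand_odd hs]
    refine ⟨v, ?_, rfl⟩
    simp only [s, Nat.unpair_pair]
    exact ht
  by_cases hk : ∀ r ∈ Ms s, r.1 ≠ s.unpair.1
  · obtain ⟨h1, h2, h3⟩ := pick_spec (s := s) (k := 2 * m + 1) (by rw [← hs]; exact hk)
    refine ⟨_, h2, ⟨s + 1, Ms_act hcand ?_ hk⟩⟩
    show _ ≤ max (rep (Ms s) (pick (Ms s) (2 * m + 1))) _
    rw [h3, hs]
    exact h1.trans (le_max_left _ _)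
  · push Not at hk
    obtain ⟨r, hr, hrk⟩ := hk
    obtain ⟨s', w, h2, h3, -, h5, h6⟩ := Ms_origin hr
    have h7 : s'.unpair.1 = 2 * m + 1 := by rw [h2, hrk, hs]
    rw [cand_odd h7] at h3
    obtain ⟨v', h8, rfl⟩ := h3
    have h9 : v' = v := Part.mem_unique (Code.evaln_sound h8) h
    rw [h9] at h5
    exact ⟨_, (pick_spec (s := s') (k := 2 * m + 1) (by rw [← h7]; exact h6)).2.1, h5⟩

/-- a diagonal function for `E1` computes a DNC function -/
theorem dn_of_E1 {X g : ℕ → ℕ} (hg : RI X g) (h : ∀ u, ¬ E1 (g u) u) :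
    ∃ d : ℕ → ℕ, RI X d ∧ DN d := by
  let b : ℕ → ℕ := fun m => (2 * m + 2) * (2 * m + 2)
  have hb : Primrec b := by
    have : Primrec (fun m : ℕ => 2 * m + 2) :=
      Primrec.nat_add.comp (Primrec.nat_mul.comp (Primrec.const 2) Primrec.id) (Primrec.const 2)
    exact Primrec.nat_mul.comp this this
  refine ⟨fun m => encode (res g (b m)), RI.of_s1 ?_, fun m v hv hd => ?_⟩
  · have hL : Primrec (fun p : ℕ × ℕ => Denumerable.ofNat (List ℕ) p.2) :=
      (Primrec.ofNat (List ℕ)).comp Primrec.snd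
    have h1 : S1 X (fun p : ℕ × ℕ => (Denumerable.ofNat (List ℕ) p.2).length = b p.1 ∧
        ∀ i < b p.1, g i = (Denumerable.ofNat (List ℕ) p.2).getD i 0) := by
      refine S1.and (S1.prim ?_) ?_
      · exact Primrec.eq.comp (Primrec.list_length.comp hL) (hb.comp Primrec.fst)
      · refine S1.balllt (A := fun (p : ℕ × ℕ) (i : ℕ) =>
          g i = (Denumerable.ofNat (List ℕ) p.2).getD i 0) (f := fun p => b p.1) ?_
          (hb.comp Primrec.fst)
        exact (s1_graph' hg).comp (Primrec.pair Primrec.snd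
          ((Primrec.list_getD 0).comp (hL.comp Primrec.fst) Primrec.snd))
    refine h1.of_iff (fun p => ?_)
    constructor
    · rintro ⟨h2, h3⟩
      have h4 : res g (b p.1) = Denumerable.ofNat (List ℕ) p.2 := by
        apply List.ext_getElem
        · rw [res_length, h2]
        · intro i h5 h6
          rw [res_length] at h5
          have h7 := h3 i h5
          rw [List.getD_eq_getElem?_getD, List.getElem?_eq_getElem h6] at h7
          have h8 := res_getD g h5
          rw [List.getD_eq_getElem?_getD, List.getElem?_eq_getElem (by rw [res_length]; exact h5)]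
            at h8
          simp only [Option.getD_some] at h7 h8
          rw [h8, h7]
      rw [h4, Denumerable.encode_ofNat]
    · intro h2
      rw [← h2, Denumerable.ofNat_encode]
      exact ⟨res_length _ _, fun i hi => (res_getD g hi).symm⟩
  · obtain ⟨x, hx, hE⟩ := E1_coding hv
    change encode (res g (b m)) = v at hd
    rw [← hd, Denumerable.ofNat_encode, res_getD g hx] at hE
    exact h x (E1_equiv.symm hE)

/-- a ceer with finitely many but at least two classes has an easy diagonal function -/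
theorem diag_of_finite {X : ℕ → ℕ} {E : ℕ → ℕ → Prop} (hE : Equivalence E)
    (hre : REPred fun p : ℕ × ℕ => E p.1 p.2) {a b : ℕ} (hab : ¬ E a b) {L : List ℕ}
    (hL : ∀ x, ∃ y ∈ L, E x y) : ∃ g : ℕ → ℕ, RI X g ∧ ∀ x, ¬ E (g x) x := by
  classical
  let L' := L.filter (fun y => ¬ E y a)
  have h1 : ∀ x, ¬ E x a ↔ ∃ y : ℕ, y ∈ L' ∧ E x y := by
    intro x
    constructor
    · intro hx
      obtain ⟨y, hy, hxy⟩ := hL x
      refine ⟨y, ?_, hxy⟩
      rw [List.mem_filter]
      refine ⟨hy, ?_⟩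
      simpa using fun h => hx (hE.trans hxy h)
    · rintro ⟨y, hy, hxy⟩ hx
      rw [List.mem_filter] at hy
      have : ¬ E y a := by simpa using hy.2
      exact this (hE.trans (hE.symm hxy) hx)
  have h2 : S1 X (fun x : ℕ => E x a) :=
    (S1.of_re hre).comp (Primrec.pair Primrec.id (Primrec.const a))
  have h3 : S1 X (fun x : ℕ => ¬ E x a) := by
    have h4 : S1 X (fun x : ℕ => ∃ y : ℕ, y ∈ L' ∧ E x y) := by
      refine S1.ex (A := fun (x : ℕ) (y : ℕ) => y ∈ L' ∧ E x y) (S1.and (S1.prim ?_)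
        (S1.of_re hre))
      have h5 : PrimrecPred (fun p : ℕ × ℕ => ∃ z ∈ L', z = p.2) :=
        PRex (R := fun (p : ℕ × ℕ) (z : ℕ) => z = p.2)
          (Primrec.eq.comp Primrec.snd (Primrec.snd.comp Primrec.fst)) (Primrec.const L')
      exact h5.of_eq (fun p => by simp)
    exact h4.of_iff (fun x => (h1 x).symm)
  have h4 := RI_of_K (t := fun x => if E x a then 1 else 0) h2 h3
    (fun n => ⟨fun h => if_pos h, fun h => if_neg h⟩)
  refine ⟨fun x => if (if E x a then 1 else 0) = 1 then b else a, ?_, fun x hx => ?_⟩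
  · have h5 : RI X (fun y : ℕ => if y = 1 then b else a) :=
      RI.prim (Primrec.ite (Primrec.eq.comp Primrec.id (Primrec.const 1)) (Primrec.const b)
        (Primrec.const a))
    exact h5.comp h4
  · change E (if (if E x a then 1 else 0) = 1 then b else a) x at hx
    by_cases h : E x a
    · rw [if_pos h, if_pos rfl] at hx
      exact hab (hE.symm (hE.trans hx h))
    · rw [if_neg h, if_neg (by omega)] at hx
      exact h (hE.symm hx)

end Pool.Agent.helper63.RV
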