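import Pool.Agent.helper63.RV.Basic

/-!
# The ceer generated by the universal partial recursive function
-/

namespace Pool.Agent.helper63.RV

open Encodable Pool.Agent.helper63.Diag Nat.Partrec

/-- the universal partial function as a step -/
def st (u : ℕ) : Part ℕ := Code.eval (Denumerable.ofNat Code u.unpair.1) u.unpair.2

theorem part_st : Partrec st := by
  have h1 : Computable (fun u : ℕ => Denumerable.ofNat Code u.unpair.1) :=
    ((Primrec.ofNat Code).comp (Primrec.fst.comp Primrec.unpair)).to_comp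
  have h2 : Computable (fun u : ℕ => u.unpair.2) :=
    (Primrec.snd.comp Primrec.unpair).to_comp
  exact Code.eval_part.comp h1 h2

/-- one step -/
def F (u w : ℕ) : Prop := w ∈ st u

/-- finitely many steps -/
def Reach : ℕ → ℕ → Prop := Relation.ReflTransGen F

/-- the equivalence relation generated by the steps -/
def E0 (u v : ℕ) : Prop := ∃ w, Reach u w ∧ Reach v w

theorem E0_equiv : Equivalence E0 := by
  refine ⟨fun u => ⟨u, Relation.ReflTransGen.refl, Relation.ReflTransGen.refl⟩,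
    fun ⟨w, h1, h2⟩ => ⟨w, h2, h1⟩, ?_⟩
  rintro u v t ⟨w, h1, h2⟩ ⟨w', h3, h4⟩
  have hr : Relator.RightUnique F := fun a b c hb hc => Part.mem_unique hb hc
  rcases Relation.ReflTransGen.total_of_right_unique hr h2 h3 with h | h
  · exact ⟨w', h1.trans h, h4⟩
  · exact ⟨w, h1, h4.trans h⟩

theorem E0_of_F {u v : ℕ} (h : F u v) : E0 u v :=
  ⟨v, Relation.ReflTransGen.single h, Relation.ReflTransGen.refl⟩

/-- iteration -/
def it (z : ℕ) : Part ℕ := z.unpair.2.rec (Part.some z.unpair.1) (fun _ IH => IH.bind st)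

theorem part_it : Partrec it := by
  have h2 : Computable (fun z : ℕ => z.unpair.2) :=
    (Primrec.snd.comp Primrec.unpair).to_comp
  have h1 : Partrec (fun z : ℕ => Part.some z.unpair.1) :=
    ((Primrec.fst.comp Primrec.unpair).to_comp : Computable (fun z : ℕ => z.unpair.1)).partrec
  have h3 : Partrec₂ (fun (_ : ℕ) (p : ℕ × ℕ) => st p.2) :=
    part_st.comp ((Primrec.snd.comp Primrec.snd).to_comp)
  exact Partrec.nat_rec h2 h1 h3

theorem reach_iff {u w : ℕ} : Reach u w ↔ ∃ n, w ∈ it (Nat.pair u n) := by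
  constructor
  · intro h
    induction h with
    | refl => exact ⟨0, by simp [it]⟩
    | tail _ h ih =>
      obtain ⟨n, hn⟩ := ih
      refine ⟨n + 1, ?_⟩
      simp only [it, Nat.unpair_pair] at hn ⊢
      exact Part.mem_bind_iff.2 ⟨_, hn, h⟩
  · rintro ⟨n, hn⟩
    induction n generalizing w with
    | zero =>
      simp only [it, Nat.unpair_pair] at hn
      rw [Part.mem_some_iff.1 hn]
      exact Relation.ReflTransGen.refl
    | succ n ih =>
      simp only [it, Nat.unpair_pair] at hn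
      obtain ⟨b, hb, h⟩ := Part.mem_bind_iff.1 hn
      exact (ih (by simpa only [it, Nat.unpair_pair] using hb)).tail h

theorem s1_reach {X : ℕ → ℕ} : S1 X (fun p : ℕ × ℕ => Reach p.1 p.2) := by
  have h1 : S1 X (fun p : ℕ × ℕ => ∃ n : ℕ, p.2 ∈ it (Nat.pair p.1 n)) := by
    refine S1.ex (A := fun (p : ℕ × ℕ) (n : ℕ) => p.2 ∈ it (Nat.pair p.1 n)) ?_
    exact (s1_partrec part_it).comp (Primrec.pair (Primrec₂.natPair.comp
      (Primrec.fst.comp Primrec.fst) Primrec.snd) (Primrec.snd.comp Primrec.fst))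
  exact h1.of_iff (fun p => reach_iff.symm)

theorem E0_re : REPred (fun p : ℕ × ℕ => E0 p.1 p.2) := by
  refine re_of_s1 ?_
  refine S1.ex (A := fun (p : ℕ × ℕ) (w : ℕ) => Reach p.1 w ∧ Reach p.2 w) (S1.and ?_ ?_)
  · exact s1_reach.comp (Primrec.pair (Primrec.fst.comp Primrec.fst) Primrec.snd)
  · exact s1_reach.comp (Primrec.pair (Primrec.snd.comp Primrec.fst) Primrec.snd)

theorem idx {θ : ℕ →. ℕ} (h : Partrec θ) : ∃ e, ∀ n v, F (Nat.pair e n) v ↔ v ∈ θ n := by
  obtain ⟨c, hc⟩ := Code.exists_code.1 (Partrec.nat_iff.1 h)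
  refine ⟨encode c, fun n v => ?_⟩
  unfold F st
  rw [Nat.unpair_pair, Denumerable.ofNat_encode, hc]

theorem E0_light : ∃ f : ℕ → ℕ, Computable f ∧ ∀ i j, i ≠ j → ¬ E0 (f i) (f j) := by
  obtain ⟨e, he⟩ := idx (θ := fun _ => Part.none) (Partrec.none)
  refine ⟨fun i => Nat.pair e i, ?_, ?_⟩
  · exact (Primrec₂.natPair.comp (Primrec.const e) Primrec.id).to_comp
  · rintro i j hij ⟨w, h1, h2⟩
    have key : ∀ n w, Reach (Nat.pair e n) w → w = Nat.pair e n := by
      intro n w h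
      rcases Relation.ReflTransGen.cases_head h with h | ⟨b, hb, -⟩
      · exact h.symm
      · exact absurd ((he n b).1 hb) (Part.notMem_none b)
    have h3 := (key i w h1).symm.trans (key j w h2)
    exact hij (Nat.pair_eq_pair.1 h3).2

/-- the parameter lemma -/
theorem smn {θ : ℕ →. ℕ} (h : Partrec θ) : ∃ q : ℕ → ℕ, Primrec q ∧
    ∀ n m, m ∈ Code.eval (Denumerable.ofNat Code (q n)) (q n) ↔ m ∈ θ n := by
  obtain ⟨c, hc⟩ := Code.exists_code.1 (Partrec.nat_iff.1 h)
  refine ⟨fun n => encode (Code.comp c (Code.const n)), ?_, fun n m => ?_⟩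
  · exact Primrec.encode.comp (Code.primrec₂_comp.comp (Primrec.const c) Code.primrec_const)
  · rw [Denumerable.ofNat_encode, ← hc]
    simp [Code.eval]

/-- diagonally noncomputable -/
def DN (d : ℕ → ℕ) : Prop := ∀ e m : ℕ, m ∈ Code.eval (Denumerable.ofNat Code e) e → d e ≠ m

theorem part_diag : Partrec (fun n : ℕ => Code.eval (Denumerable.ofNat Code n) n) :=
  Code.eval_part.comp (Primrec.ofNat Code).to_comp Computable.id

theorem DN.avoid {X d : ℕ → ℕ} (hd : RI X d) (h : DN d) {θ : ℕ →. ℕ} (hθ : Partrec θ) :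
    ∃ q : ℕ → ℕ, Primrec q ∧ RI X (fun n => d (q n)) ∧ ∀ n, d (q n) ∉ θ n := by
  obtain ⟨q, hq, h1⟩ := smn hθ
  exact ⟨q, hq, hd.comp (RI.prim hq), fun n hn => h (q n) _ ((h1 n _).2 hn) rfl⟩

/-- a DNC function computes a diagonal function for every light ceer, uniformly in a parameter -/
theorem light_unif {X d : ℕ → ℕ} (hd : RI X d) (h : DN d) {E : ℕ → ℕ → ℕ → Prop}
    (hE : ∀ n, Equivalence (E n)) (hre : REPred fun p : ℕ × ℕ × ℕ => E p.1 p.2.1 p.2.2)
    {f : ℕ → ℕ → ℕ} (hf : Computable₂ f) (hl : ∀ n i j, i ≠ j → ¬ E n (f n i) (f n j)) :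
    ∃ g : ℕ → ℕ, RI X g ∧ ∀ n x, ¬ E n (g (Nat.pair n x)) x := by
  have hA : REPred (fun p : ℕ × ℕ => E p.1.unpair.1 (f p.1.unpair.1 p.2) p.1.unpair.2) := by
    have hc : Computable (fun p : ℕ × ℕ => (p.1.unpair.1, f p.1.unpair.1 p.2, p.1.unpair.2)) := by
      have hu1 : Computable (fun p : ℕ × ℕ => p.1.unpair.1) :=
        (Primrec.fst.comp (Primrec.unpair.comp Primrec.fst)).to_comp
      have hu2 : Computable (fun p : ℕ × ℕ => p.1.unpair.2) :=
        (Primrec.snd.comp (Primrec.unpair.comp Primrec.fst)).to_comp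
      exact hu1.pair ((hf.comp hu1 Computable.snd).pair hu2)
    have := Partrec.comp hre hc
    exact this
  obtain ⟨ψ, hψ, h1, h2⟩ := select hA
  obtain ⟨q, hq, h3, h4⟩ := DN.avoid hd h hψ
  refine ⟨fun z => f z.unpair.1 (d (q z)), ?_, fun n x hx => ?_⟩
  · have hF : RI X (fun z => f z.unpair.1.unpair.1 z.unpair.2) := by
      refine RI.computable ?_
      have hu1 : Computable (fun z : ℕ => z.unpair.1.unpair.1) :=
        (Primrec.fst.comp (Primrec.unpair.comp (Primrec.fst.comp Primrec.unpair))).to_comp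
      have hu2 : Computable (fun z : ℕ => z.unpair.2) :=
        (Primrec.snd.comp Primrec.unpair).to_comp
      exact hf.comp hu1 hu2
    have := hF.comp ((RI.prim Primrec.id).pair h3)
    simpa using this
  · simp only [Nat.unpair_pair] at hx
    have hAx : (fun p : ℕ × ℕ => E p.1.unpair.1 (f p.1.unpair.1 p.2) p.1.unpair.2)
        (Nat.pair n x, d (q (Nat.pair n x))) := by
      simpa using hx
    have hdom := h2 (Nat.pair n x) ⟨_, hAx⟩
    obtain ⟨i, hi⟩ := Part.dom_iff_mem.1 hdom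
    have h5 := h1 _ _ hi
    simp only [Nat.unpair_pair] at h5
    have h6 : i ≠ d (q (Nat.pair n x)) := fun h7 => h4 _ (h7 ▸ hi)
    exact hl n _ _ h6 ((hE n).trans h5 ((hE n).symm hx))

/-- a diagonal function for `E0` computes a DNC function -/
theorem dn_of_E0 {X g : ℕ → ℕ} (hg : RI X g) (h : ∀ u, ¬ E0 (g u) u) :
    ∃ d : ℕ → ℕ, RI X d ∧ DN d := by
  obtain ⟨e, he⟩ := idx part_diag
  refine ⟨fun n => g (Nat.pair e n), hg.comp (RI.prim (Primrec₂.natPair.comp (Primrec.const e)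
    Primrec.id)), fun n m hm hgm => ?_⟩
  have h1 : F (Nat.pair e n) m := (he n m).2 hm
  apply h (Nat.pair e n)
  change g (Nat.pair e n) = m at hgm
  rw [hgm]
  exact E0_equiv.symm (E0_of_F h1)

/-- a `{0,1}`-valued DNC function avoids all `{0,1}`-valued partial recursive functions -/
theorem av_two {X d : ℕ → ℕ} (hd : RI X d) (h : DN d) (h2 : ∀ e, d e < 2) : Av X 2 := by
  intro θ hθ
  obtain ⟨q, hq, h3, h4⟩ := DN.avoid hd h hθ
  exact ⟨_, h3, fun n => ⟨h2 _, h4 n⟩⟩

/-- conversely -/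
theorem dn_of_av {X : ℕ → ℕ} {k : ℕ} (h : Av X k) :
    ∃ d : ℕ → ℕ, RI X d ∧ DN d ∧ ∀ e, d e < k := by
  obtain ⟨c, hc, h1⟩ := h _ part_diag
  exact ⟨c, hc, fun e m hm hcm => (h1 e).2 (hcm ▸ hm), fun e => (h1 e).1⟩

/-- finite range diagonal functions for `E0` give PA -/
theorem av_of_E0 {X g : ℕ → ℕ} (hg : RI X g) (h : ∀ u, ¬ E0 (g u) u)
    (hfin : (Set.range g).Finite) : ∃ k, Av X k := by
  classical
  let L : List ℕ := hfin.toFinset.toList
  have hL : ∀ u, g u ∈ L := by
    intro u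
    rw [Finset.mem_toList, Set.Finite.mem_toFinset]
    exact ⟨u, rfl⟩
  refine ⟨L.length, fun θ hθ => ?_⟩
  have hθ' : Partrec (fun n => (θ n).map (fun i => L.getD i 0)) := by
    refine hθ.map ?_
    exact ((Primrec.list_getD 0).comp (Primrec.const L) Primrec.snd).to_comp
  obtain ⟨e, he⟩ := idx hθ'
  refine ⟨fun n => L.idxOf (g (Nat.pair e n)), ?_, fun n => ⟨?_, fun hn => ?_⟩⟩
  · have h1 : RI X (fun v => L.idxOf v) :=
      RI.prim (Primrec.list_idxOf.comp Primrec.id (Primrec.const L))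
    exact h1.comp (hg.comp (RI.prim (Primrec₂.natPair.comp (Primrec.const e) Primrec.id)))
  · exact List.idxOf_lt_length_iff.2 (hL _)
  · apply h (Nat.pair e n)
    have h1 : F (Nat.pair e n) (g (Nat.pair e n)) := by
      rw [he, Part.mem_map_iff]
      refine ⟨_, hn, ?_⟩
      have h2 := List.idxOf_lt_length_iff.2 (hL (Nat.pair e n))
      rw [List.getD_eq_getElem?_getD, List.getElem?_eq_getElem h2]
      exact List.getElem_idxOf h2
    exact E0_equiv.symm (E0_of_F h1)

end Pool.Agent.helper63.RV
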