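import Pool.Agent.helper63.RV.Dark2
import Pool.Agent.helper63.RV.Bdd

/-!
# Light ceers, dark ceers, and uniform versions of `Diag`

The degrees computing diagonal functions for all light ceers are the DNR degrees; the dark ceers
alone determine `Diag`; the finite-range and the uniform versions of `Diag` are characterised by
the PA degrees and by the degrees above `0'` and `0''`.
-/

namespace Pool.Agent.Results.MP_a87378_lc.RestrictedVersions

open Pool.Agent.helper63.Diag Pool.Agent.helper63.RV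

/-- A ceer: a computably enumerable equivalence relation on the natural numbers. -/
def IsCeer (E : ℕ → ℕ → Prop) : Prop :=
  Equivalence E ∧ REPred fun p : ℕ × ℕ => E p.1 p.2

/-- `g` is a diagonal function for `E`. -/
def IsDiagonal (E : ℕ → ℕ → Prop) (g : ℕ → ℕ) : Prop := ∀ x, ¬ E (g x) x

/-- The (total) function `f` is Turing computable from the oracle `X`. -/
def ComputableFrom (f X : ℕ → ℕ) : Prop :=
  TuringReducible (fun n => Part.some (f n)) (fun n => Part.some (X n))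

/-- `X` computes a diagonal function for `E`. -/
def ComputesDiagonal (X : ℕ → ℕ) (E : ℕ → ℕ → Prop) : Prop :=
  ∃ g : ℕ → ℕ, ComputableFrom g X ∧ IsDiagonal E g

/-- `X` computes a diagonal function for `E` that takes only finitely many values. -/
def ComputesFiniteDiagonal (X : ℕ → ℕ) (E : ℕ → ℕ → Prop) : Prop :=
  ∃ g : ℕ → ℕ, ComputableFrom g X ∧ IsDiagonal E g ∧ (Set.range g).Finite

/-- `g` is bounded by a computable function. -/
def ComputablyBounded (g : ℕ → ℕ) : Prop := ∃ b : ℕ → ℕ, Computable b ∧ ∀ x, g x ≤ b x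

/-- `X` computes a diagonal function for `E` that is bounded by a computable function. -/
def ComputesBoundedDiagonal (X : ℕ → ℕ) (E : ℕ → ℕ → Prop) : Prop :=
  ∃ g : ℕ → ℕ, ComputableFrom g X ∧ IsDiagonal E g ∧ ComputablyBounded g

/-- The degree of `X` belongs to the class `Diag`: every ceer `E` with `E ≠ Id₁` (that is, with two
inequivalent numbers) has a diagonal function computable from `X`. -/
def InDiag (X : ℕ → ℕ) : Prop :=
  ∀ E : ℕ → ℕ → Prop, IsCeer E → (∃ a b, ¬ E a b) → ComputesDiagonal X E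

/-- `E` is light: there is a computable sequence of pairwise `E`-inequivalent numbers. -/
def Light (E : ℕ → ℕ → Prop) : Prop :=
  ∃ f : ℕ → ℕ, Computable f ∧ ∀ i j, i ≠ j → ¬ E (f i) (f j)

/-- `E` is dark: it has infinitely many classes (no finite list of numbers meets all the classes)
and is not light. -/
def Dark (E : ℕ → ℕ → Prop) : Prop :=
  (∀ L : List ℕ, ∃ x, ∀ y ∈ L, ¬ E x y) ∧ ¬ Light E

/-- `f` is diagonally noncomputable: `f e ≠ φ_e(e)` whenever `φ_e(e)` converges. -/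
def IsDNR (f : ℕ → ℕ) : Prop :=
  ∀ e m : ℕ, m ∈ Nat.Partrec.Code.eval (Nat.Partrec.Code.ofNatCode e) e → f e ≠ m

/-- `X` computes a diagonally noncomputable function. -/
def ComputesDNR (X : ℕ → ℕ) : Prop := ∃ f : ℕ → ℕ, ComputableFrom f X ∧ IsDNR f

/-- `X` computes a computably bounded diagonally noncomputable function. -/
def ComputesBoundedDNR (X : ℕ → ℕ) : Prop :=
  ∃ f : ℕ → ℕ, ComputableFrom f X ∧ IsDNR f ∧ ComputablyBounded f

/-- The degree of `X` is a PA degree, in the standard equivalent form: `X` computes a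
`{0,1}`-valued diagonally noncomputable function. -/
def IsPA (X : ℕ → ℕ) : Prop :=
  ∃ f : ℕ → ℕ, ComputableFrom f X ∧ IsDNR f ∧ ∀ e, f e < 2

/-- `E 0, E 1, ...` is a uniformly computably enumerable sequence of ceers. -/
def IsCeerSeq (E : ℕ → ℕ → ℕ → Prop) : Prop :=
  (∀ n, Equivalence (E n)) ∧ REPred fun p : ℕ × ℕ × ℕ => E p.1 p.2.1 p.2.2

/-- `X` computes, uniformly, diagonal functions for the members of the sequence: some function `g`
computable from `X` is such that `x ↦ g (n, x)` is a diagonal function for `E n` whenever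
`E n ≠ Id₁`. -/
def ComputesUniformly (X : ℕ → ℕ) (E : ℕ → ℕ → ℕ → Prop) : Prop :=
  ∃ g : ℕ → ℕ, ComputableFrom g X ∧
    ∀ n, (∃ a b, ¬ E n a b) → ∀ x, ¬ E n (g (Nat.pair n x)) x

open scoped Classical in
/-- The characteristic function of the halting problem `{n : φ_n(n) converges}`. -/
noncomputable def halting (n : ℕ) : ℕ :=
  if (Nat.Partrec.Code.eval (Nat.Partrec.Code.ofNatCode n) n).Dom then 1 else 0

open scoped Classical in
/-- The characteristic function of `{n : φ_n is total}`. -/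
noncomputable def totality (n : ℕ) : ℕ :=
  if ∀ y, (Nat.Partrec.Code.eval (Nat.Partrec.Code.ofNatCode n) y).Dom then 1 else 0

theorem cf_iff {f X : ℕ → ℕ} : ComputableFrom f X ↔ RI X f := RecursiveIn.iff_nat

theorem isDNR_iff {d : ℕ → ℕ} : IsDNR d ↔ DN d := by
  unfold IsDNR DN
  rw [← Nat.Partrec.Code.ofNatCode_eq]

theorem halting_spec (n : ℕ) : (K n → halting n = 1) ∧ (¬ K n → halting n = 0) := by
  unfold K halting
  rw [← Nat.Partrec.Code.ofNatCode_eq]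
  exact ⟨fun h => if_pos h, fun h => if_neg h⟩

theorem totality_spec (n : ℕ) : (Tt n → totality n = 1) ∧ (¬ Tt n → totality n = 0) := by
  unfold Tt totality
  rw [← Nat.Partrec.Code.ofNatCode_eq]
  exact ⟨fun h => if_pos h, fun h => if_neg h⟩

theorem halting_iff {X : ℕ → ℕ} : ComputableFrom halting X ↔ S1 X (fun n => ¬ K n) := by
  rw [cf_iff]
  exact ⟨fun h => (s1_of_RI h halting_spec).2, fun h => RI_of_K s1_K h halting_spec⟩

theorem totality_iff {X : ℕ → ℕ} :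
    ComputableFrom totality X ↔ S1 X Tt ∧ S1 X (fun n => ¬ Tt n) := by
  rw [cf_iff]
  exact ⟨fun h => s1_of_RI h totality_spec, fun h => RI_of_K h.1 h.2 totality_spec⟩

theorem isPA_iff {X : ℕ → ℕ} : IsPA X ↔ Av X 2 := by
  constructor
  · rintro ⟨f, h1, h2, h3⟩
    exact av_two (cf_iff.1 h1) (isDNR_iff.1 h2) h3
  · intro h
    obtain ⟨d, h1, h2, h3⟩ := dn_of_av h
    exact ⟨d, cf_iff.2 h1, isDNR_iff.2 h2, h3⟩

/-- `E0` as a constant sequence -/
theorem const_seq {E : ℕ → ℕ → Prop} (h : IsCeer E) : IsCeerSeq (fun _ => E) := by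
  refine ⟨fun _ => h.1, ?_⟩
  have h1 : Computable (fun p : ℕ × ℕ × ℕ => (p.2.1, p.2.2)) :=
    Computable.snd
  have := Partrec.comp h.2 h1
  exact this

theorem e0_ceer : IsCeer E0 := ⟨E0_equiv, E0_re⟩

theorem e1_ceer : IsCeer E1 := ⟨E1_equiv, E1_re⟩

theorem light_ne {E : ℕ → ℕ → Prop} (h : Light E) : ∃ a b, ¬ E a b := by
  obtain ⟨f, -, hl⟩ := h
  exact ⟨_, _, hl 0 1 (by omega)⟩

theorem light_of_dnr {X : ℕ → ℕ} (h : ComputesDNR X) {E : ℕ → ℕ → Prop} (hE : IsCeer E)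
    (hl : Light E) : ComputesDiagonal X E := by
  obtain ⟨d, hd, hd2⟩ := h
  obtain ⟨f, hf, hf2⟩ := hl
  obtain ⟨g, h1, h2, -⟩ := light_bdd (cf_iff.1 hd) (isDNR_iff.1 hd2) hE.1 hE.2 hf hf2
  exact ⟨g, cf_iff.2 h1, h2⟩

theorem dnr_of_e0 {X : ℕ → ℕ} (h : ComputesDiagonal X E0) : ComputesDNR X := by
  obtain ⟨g, h1, h2⟩ := h
  obtain ⟨d, h3, h4⟩ := dn_of_E0 (cf_iff.1 h1) h2
  exact ⟨d, cf_iff.2 h3, isDNR_iff.2 h4⟩

theorem dnr_of_e1 {X : ℕ → ℕ} (h : ComputesDiagonal X E1) : ComputesDNR X := by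
  obtain ⟨g, h1, h2⟩ := h
  obtain ⟨d, h3, h4⟩ := dn_of_E1 (cf_iff.1 h1) h2
  exact ⟨d, cf_iff.2 h3, isDNR_iff.2 h4⟩

theorem bounded_of_dnr {X : ℕ → ℕ} (h : ComputesBoundedDNR X) {E : ℕ → ℕ → Prop} (hE : IsCeer E)
    (hl : Light E) : ComputesBoundedDiagonal X E := by
  obtain ⟨d, hd, hd2, hd3⟩ := h
  obtain ⟨f, hf, hf2⟩ := hl
  obtain ⟨g, h1, h2, h3⟩ := light_bdd (cf_iff.1 hd) (isDNR_iff.1 hd2) hE.1 hE.2 hf hf2
  exact ⟨g, cf_iff.2 h1, h2, h3 hd3⟩

theorem bounded_of_e0 {X : ℕ → ℕ} (h : ComputesBoundedDiagonal X E0) : ComputesBoundedDNR X := by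
  obtain ⟨g, h1, h2, h3⟩ := h
  obtain ⟨d, h4, h5, h6⟩ := dn_of_E0_bdd (cf_iff.1 h1) h2 h3
  exact ⟨d, cf_iff.2 h4, isDNR_iff.2 h5, h6⟩

theorem pa_of_e0 {X : ℕ → ℕ} (h : ComputesFiniteDiagonal X E0) : IsPA X := by
  obtain ⟨g, h1, h2, h3⟩ := h
  obtain ⟨k, hk⟩ := av_of_E0 (cf_iff.1 h1) h2 h3
  exact isPA_iff.2 hk.two

theorem uniform_of_pa {X : ℕ → ℕ} (h : IsPA X) {E : ℕ → ℕ → ℕ → Prop} (hE : IsCeerSeq E)
    {a b : ℕ → ℕ} (ha : Computable a) (hb : Computable b) (hab : ∀ n, ¬ E n (a n) (b n)) :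
    ∃ g : ℕ → ℕ, ComputableFrom g X ∧ ∀ n x,
      (g (Nat.pair n x) = a n ∨ g (Nat.pair n x) = b n) ∧ ¬ E n (g (Nat.pair n x)) x := by
  obtain ⟨g, h1, h2⟩ := two_unif (isPA_iff.1 h) hE.1 hE.2 ha hb hab
  exact ⟨g, cf_iff.2 h1, h2⟩

theorem finite_of_pa {X : ℕ → ℕ} (h : IsPA X) {E : ℕ → ℕ → Prop} (hE : IsCeer E)
    (hn : ∃ a b, ¬ E a b) : ComputesFiniteDiagonal X E := by
  obtain ⟨a, b, hab⟩ := hn
  obtain ⟨g, h1, h2⟩ := uniform_of_pa h (const_seq hE) (Computable.const a) (Computable.const b)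
    (fun _ => hab)
  refine ⟨fun x => g (Nat.pair 0 x), cf_iff.2 ((cf_iff.1 h1).comp (RI.prim
    (Primrec₂.natPair.comp (Primrec.const 0) Primrec.id))), fun x => (h2 0 x).2, ?_⟩
  refine (Set.toFinite {a, b}).subset ?_
  rintro _ ⟨x, rfl⟩
  rcases (h2 0 x).1 with h3 | h3
  · exact Or.inl h3
  · exact Or.inr h3

theorem result :
    (∃ E0 : ℕ → ℕ → Prop, IsCeer E0 ∧ Light E0 ∧ ∀ X : ℕ → ℕ,
      (ComputesDiagonal X E0 ↔ ComputesDNR X) ∧
      (ComputesBoundedDiagonal X E0 ↔ ComputesBoundedDNR X) ∧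
      (ComputesFiniteDiagonal X E0 ↔ IsPA X)) ∧
    (∃ E1 : ℕ → ℕ → Prop, IsCeer E1 ∧ Dark E1 ∧ ∀ X : ℕ → ℕ,
      ComputesDiagonal X E1 → ComputesDNR X) ∧
    ∀ X : ℕ → ℕ,
      ((∀ E, IsCeer E → Light E → ComputesDiagonal X E) ↔ ComputesDNR X) ∧
      ((∀ E, IsCeer E → Light E → ComputesBoundedDiagonal X E) ↔ ComputesBoundedDNR X) ∧
      ((∀ E, IsCeer E → Dark E → ComputesDiagonal X E) ↔ InDiag X) ∧
      ((∀ E, IsCeer E → (∃ a b, ¬ E a b) → ComputesFiniteDiagonal X E) ↔ IsPA X) ∧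
      ((∀ E, IsCeerSeq E → (∃ f : ℕ → ℕ → ℕ, Computable₂ f ∧
          ∀ n i j, i ≠ j → ¬ E n (f n i) (f n j)) → ComputesUniformly X E) ↔ ComputesDNR X) ∧
      ((∀ E, IsCeerSeq E → (∃ a b : ℕ → ℕ, Computable a ∧ Computable b ∧
          ∀ n, ¬ E n (a n) (b n)) → ComputesUniformly X E) ↔ IsPA X) ∧
      ((∀ E, IsCeerSeq E → (∀ n, ¬ E n 0 1) → (∀ n, ∀ x ≥ 2, E n x 2) →
          ComputesUniformly X E) ↔ IsPA X) ∧
      ((∀ E, IsCeerSeq E → (∀ n, ∃ a b, ¬ E n a b) → ComputesUniformly X E) ↔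
          ComputableFrom halting X) ∧
      ((∀ E, IsCeerSeq E → (∀ n, {p : ℕ × ℕ | p.1 ≠ p.2 ∧ E n p.1 p.2}.Finite) →
          ComputesUniformly X E) ↔ ComputableFrom halting X) ∧
      ((∀ E, IsCeerSeq E → ComputesUniformly X E) ↔ ComputableFrom totality X) := by
  have hu : ∀ {X : ℕ → ℕ} {E : ℕ → ℕ → ℕ → Prop}, (∃ g : ℕ → ℕ, RI X g ∧
      ∀ n x, ¬ E n (g (Nat.pair n x)) x) → ComputesUniformly X E :=
    fun ⟨g, h1, h2⟩ => ⟨g, cf_iff.2 h1, fun n _ => h2 n⟩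
  have hu' : ∀ {X : ℕ → ℕ} {E : ℕ → ℕ → ℕ → Prop}, ComputesUniformly X E →
      (∀ n, ∃ a b, ¬ E n a b) → ∃ g : ℕ → ℕ, RI X g ∧ ∀ n x, ¬ E n (g (Nat.pair n x)) x :=
    fun ⟨g, h1, h2⟩ h3 => ⟨g, cf_iff.1 h1, fun n => h2 n (h3 n)⟩
  have hEK : IsCeerSeq EK := ⟨EK_equiv, EK_re⟩
  have h0 : ∀ {X : ℕ → ℕ}, ComputesUniformly X EK → S1 X (fun n => ¬ K n) := by
    intro X h
    obtain ⟨g, h1, h2⟩ := hu' h (fun n => nontriv_of_finite (EK_finite n))
    exact K_of_EK h1 h2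
  have h3 : ∀ {X : ℕ → ℕ}, (∀ E, IsCeerSeq E → (∀ n, ¬ E n 0 1) → (∀ n, ∀ x ≥ 2, E n x 2) →
          ComputesUniformly X E) → IsPA X := by
    intro X h
    rw [isPA_iff]
    intro θ hθ
    obtain ⟨g, h1, h2⟩ := hu' (h (E3 θ) ⟨E3_equiv θ, E3_re hθ⟩ (E3_zero_one θ) (E3_two θ))
      (fun n => ⟨0, 1, E3_zero_one θ n⟩)
    exact ⟨fun n => g (Nat.pair n 2), h1.comp (RI.prim (Primrec₂.natPair.comp Primrec.id
      (Primrec.const 2))), fun n => E3_avoid (h2 n 2)⟩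
  refine ⟨⟨E0, e0_ceer, E0_light, fun X => ⟨⟨dnr_of_e0, fun h => light_of_dnr h e0_ceer E0_light⟩,
    ⟨bounded_of_e0, fun h => bounded_of_dnr h e0_ceer E0_light⟩,
    ⟨pa_of_e0, fun h => finite_of_pa h e0_ceer (light_ne E0_light)⟩⟩⟩,
    ⟨E1, e1_ceer, ⟨E1_inf, E1_not_light⟩, fun X => dnr_of_e1⟩, fun X => ⟨?_, ?_, ?_, ?_, ?_, ?_,
    ?_, ?_, ?_, ?_⟩⟩
  · exact ⟨fun h => dnr_of_e0 (h E0 e0_ceer E0_light), fun h E => light_of_dnr h⟩
  · exact ⟨fun h => bounded_of_e0 (h E0 e0_ceer E0_light), fun h E => bounded_of_dnr h⟩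
  · constructor
    · intro h E hE hn
      by_cases h1 : Light E
      · exact light_of_dnr (dnr_of_e1 (h E1 e1_ceer ⟨E1_inf, E1_not_light⟩)) hE h1
      · by_cases h2 : ∀ L : List ℕ, ∃ x, ∀ y ∈ L, ¬ E x y
        · exact h E hE ⟨h2, h1⟩
        · push Not at h2
          obtain ⟨L, hL⟩ := h2
          obtain ⟨a, b, hab⟩ := hn
          obtain ⟨g, h3, h4⟩ := diag_of_finite (X := X) hE.1 hE.2 hab hL
          exact ⟨g, cf_iff.2 h3, h4⟩
    · intro h E hE hd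
      refine h E hE ?_
      obtain ⟨x, hx⟩ := hd.1 [0]
      exact ⟨x, 0, hx 0 (by simp)⟩
  · exact ⟨fun h => pa_of_e0 (h E0 e0_ceer (light_ne E0_light)), fun h E => finite_of_pa h⟩
  · constructor
    · intro h
      obtain ⟨f, hf, hl⟩ := E0_light
      obtain ⟨g, h1, h2⟩ := hu' (h (fun _ => E0) (const_seq e0_ceer)
        ⟨fun _ i => f i, hf.comp Computable.snd, fun _ => hl⟩) (fun _ => light_ne E0_light)
      exact dnr_of_e0 ⟨fun x => g (Nat.pair 0 x), cf_iff.2 (h1.comp (RI.prim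
        (Primrec₂.natPair.comp (Primrec.const 0) Primrec.id))), fun x => h2 0 x⟩
    · rintro ⟨d, hd, hd2⟩ E hE ⟨f, hf, hl⟩
      exact hu (light_unif (cf_iff.1 hd) (isDNR_iff.1 hd2) hE.1 hE.2 hf hl)
  · constructor
    · intro h
      refine h3 (fun E hE h1 _ => h E hE ⟨fun _ => 0, fun _ => 1, Computable.const 0,
        Computable.const 1, h1⟩)
    · rintro h E hE ⟨a, b, ha, hb, hab⟩
      obtain ⟨g, h1, h2⟩ := uniform_of_pa h hE ha hb hab
      exact ⟨g, h1, fun n _ x => (h2 n x).2⟩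
  · refine ⟨h3, fun h E hE h1 _ => ?_⟩
    obtain ⟨g, h4, h5⟩ := uniform_of_pa h hE (Computable.const 0) (Computable.const 1) h1
    exact ⟨g, h4, fun n _ x => (h5 n x).2⟩
  · rw [halting_iff]
    exact ⟨fun h => h0 (h EK hEK (fun n => nontriv_of_finite (EK_finite n))),
      fun h E hE hn => hu (unif_of_K h hE.1 hE.2 hn)⟩
  · rw [halting_iff]
    exact ⟨fun h => h0 (h EK hEK EK_finite),
      fun h E hE hn => hu (unif_of_K h hE.1 hE.2 (fun n => nontriv_of_finite (hn n)))⟩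
  · rw [totality_iff]
    constructor
    · intro h
      obtain ⟨g, h1, h2⟩ := h ET ⟨ET_equiv, ET_re⟩
      exact Tt_of_ET (h0 (h EK hEK)) (cf_iff.1 h1) h2
    · rintro ⟨h1, h2⟩ E hE
      obtain ⟨g, h4, h5⟩ := unif_of_Tt h1 h2 hE.2 hE.1
      exact ⟨g, cf_iff.2 h4, h5⟩

end Pool.Agent.Results.MP_a87378_lc.RestrictedVersions
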